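import Pool.Agent.Lib_MP_a20b56_co.Problem
import Pool.Agent.Lib_MP_a20b56_co.Defs

/-!
# Planar volumetric weak epsilon-nets (MP_a20b56_co): definitions
-/

namespace MPa20b56

open scoped BigOperators Classical
open MeasureTheory

noncomputable section

/-- `S` is a weak `ε`-net for the finite point set `P ⊆ ℝ^d`: the convex hull of every subset
`G ⊆ P` with `|G| ≥ ε |P|` contains a point of `S`. -/
def IsPointNet (d : ℕ) (P : Finset (Fin d → ℝ)) (ε : ℝ) (S : Finset (Fin d → ℝ)) : Prop :=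
  ∀ G : Finset (Fin d → ℝ), G ⊆ P → ε * (P.card : ℝ) ≤ (G.card : ℝ) →
    ∃ s ∈ S, s ∈ convexHull ℝ (G : Set (Fin d → ℝ))

/-- `β` is an admissible exponent for weak `ε`-nets of finite point sets in `ℝ^d`. -/
def PointAdmissible (d : ℕ) (β : ℝ) : Prop :=
  0 < β ∧ ∃ C : ℝ, ∀ ε : ℝ, 0 < ε → ε ≤ 1 →
    ∀ P : Finset (Fin d → ℝ), P.Nonempty →
      ∃ S : Finset (Fin d → ℝ), (S.card : ℝ) ≤ C * ε ^ (-β) ∧ IsPointNet d P ε S

/-- The exponent `β_d` of ordinary weak `ε`-nets: the infimum of the admissible exponents. -/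
def beta (d : ℕ) : EReal :=
  sInf {a : EReal | ∃ β : ℝ, PointAdmissible d β ∧ a = (β : EReal)}

namespace Pl

/-- pairing of a functional and a vector of the plane -/
def dt (φ x : V 2) : ℝ := φ 0 * x 0 + φ 1 * x 1

/-- determinant of two vectors of the plane -/
def dd (φ ψ : V 2) : ℝ := φ 0 * ψ 1 - φ 1 * ψ 0

/-- square of the Euclidean norm -/
def sq (φ : V 2) : ℝ := φ 0 ^ 2 + φ 1 ^ 2

/-- the `ℓ^1` norm -/
def N1 (φ : V 2) : ℝ := |φ 0| + |φ 1|

/-- the quadratic form `φ ↦ Σ_i (φ·u_i)^2` -/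
def qf (u : Fin 2 → V 2) (φ : V 2) : ℝ := dt φ (u 0) ^ 2 + dt φ (u 1) ^ 2

/-- the trace of the quadratic form `qf u` -/
def tr2 (u : Fin 2 → V 2) : ℝ := sq (u 0) + sq (u 1)

/-- the standard basis -/
def std : Fin 2 → V 2 := ![![1, 0], ![0, 1]]

/-- The parallelogram with centre `x` and half sides `κ w_0`, `κ w_1`. -/
def Bx (κ : ℝ) (x : V 2) (w : Fin 2 → V 2) : Set (V 2) :=
  {y | ∃ t : Fin 2 → ℝ, (∀ i, |t i| ≤ κ) ∧ y = x + ∑ i, t i • w i}

/-- coordinates of `x` in a basis `w` of determinant `1` -/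
def co (w : Fin 2 → V 2) (x : V 2) : V 2 := ![dd x (w 1), dd (w 0) x]

/-- Weak nets for indexed point families (multisets) in `ℝ^d`. -/
def MultiNet (d : ℕ) (β C : ℝ) : Prop :=
  ∀ (ι : Type) (c : ι → V d) (J : Finset ι) (ε : ℝ), 0 < ε → ε ≤ 1 →
    ∃ S : Finset (V d), (S.card : ℝ) ≤ C * ε ^ (-β) ∧
      ∀ G ⊆ J, G.Nonempty → ε * (J.card : ℝ) ≤ (G.card : ℝ) →
        ∃ s ∈ S, s ∈ convexHull ℝ (c '' (G : Set ι))

/-- centred family of shapes: no direction is short for more than three quarters of them -/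
def Centered {ι : Type} (u : ι → Fin 2 → V 2) (J : Finset ι) : Prop :=
  ∀ a : V 2, sq a = 1 →
    4 * (J.filter (fun j => 4 * qf (u j) a < tr2 (u j))).card ≤ 3 * J.card

/-- the direction of the cell number `a` out of `m` -/
def ea (m a : ℕ) : V 2 :=
  ![Real.cos (Real.pi * ((a : ℝ) + 1 / 2) / m), Real.sin (Real.pi * ((a : ℝ) + 1 / 2) / m)]

/-- the cell `a < 8b` is in the block number `k < 8` (with offset `o < b`): the blocks are the
cyclic intervals of `b + 7` cells starting at `o + k b`. -/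
def InBlock (b o k a : ℕ) : Prop :=
  ((a + 8 * b - o) % (8 * b)) / b = k ∨
    (((a + 8 * b - o) % (8 * b)) / b = (k + 1) % 8 ∧ ((a + 8 * b - o) % (8 * b)) % b < 7)

/-- The two cells `a, a' < 8b` have cyclic distance at least `4`. -/
def Far (b a a' : ℕ) : Prop := (a + 4 ≤ a' ∧ a' + 4 ≤ a + 8 * b) ∨ (a' + 4 ≤ a ∧ a + 4 ≤ a' + 8 * b)

end Pl

end

end MPa20b56
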