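import Pool.Agent.Lib_MP_a20b56_pl.Quad

namespace MPa20b56

open scoped BigOperators Classical

noncomputable section

namespace Pl

theorem sq_ea (m a : ℕ) : sq (ea m a) = 1 := by
  unfold sq ea
  simp only [Matrix.cons_val_zero, Matrix.cons_val_one]
  exact Real.cos_sq_add_sin_sq _

/-- the unit vector of angle `θ` -/
def Angle_u (θ : ℝ) : V 2 := ![Real.cos θ, Real.sin θ]

theorem Angle_sq_u (θ : ℝ) : sq (Angle_u θ) = 1 := by
  unfold sq Angle_u
  simp only [Matrix.cons_val_zero, Matrix.cons_val_one]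
  exact Real.cos_sq_add_sin_sq _

theorem Angle_ea_eq (m a : ℕ) : ea m a = Angle_u (Real.pi * ((a : ℝ) + 1 / 2) / m) := rfl

theorem Angle_dd_u (θ θ' : ℝ) : dd (Angle_u θ) (Angle_u θ') = Real.sin (θ' - θ) := by
  unfold dd Angle_u
  simp only [Matrix.cons_val_zero, Matrix.cons_val_one]
  rw [Real.sin_sub]
  ring

/-- every unit vector has an angle -/
theorem Angle_exists (ν : V 2) (hν : sq ν = 1) : ∃ θ : ℝ, ν = Angle_u θ := by
  unfold sq at hν
  refine ⟨Complex.arg ⟨ν 0, ν 1⟩, ?_⟩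
  have hnorm : ‖(⟨ν 0, ν 1⟩ : ℂ)‖ = 1 := by
    rw [Complex.norm_def, Complex.normSq_mk]
    rw [show ν 0 * ν 0 + ν 1 * ν 1 = 1 by nlinarith]
    exact Real.sqrt_one
  have hne : (⟨ν 0, ν 1⟩ : ℂ) ≠ 0 := by
    intro h
    rw [h, norm_zero] at hnorm
    exact zero_ne_one hnorm
  have hc := Complex.cos_arg hne
  have hs := Complex.sin_arg (⟨ν 0, ν 1⟩ : ℂ)
  rw [hnorm, div_one] at hc hs
  unfold Angle_u
  ext i
  fin_cases i
  · simp [hc]
  · simp [hs]

/-- every unit vector has, up to sign, an angle in `[0, π)` -/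
theorem Angle_exists' (ν : V 2) (hν : sq ν = 1) :
    ∃ θ : ℝ, 0 ≤ θ ∧ θ < Real.pi ∧ (ν = Angle_u θ ∨ ν = -Angle_u θ) := by
  obtain ⟨θ, hθ⟩ := Angle_exists ν hν
  have hpi := Real.pi_pos
  refine ⟨θ - ⌊θ / Real.pi⌋ * Real.pi, ?_, ?_, ?_⟩
  · have h1 := Int.floor_le (θ / Real.pi)
    rw [le_div_iff₀ hpi] at h1
    linarith
  · have h1 := Int.lt_floor_add_one (θ / Real.pi)
    rw [div_lt_iff₀ hpi] at h1
    linarith
  · set n : ℤ := ⌊θ / Real.pi⌋
    rcases Int.even_or_odd n with he | ho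
    · left
      rw [hθ]
      obtain ⟨j, hj⟩ := he
      unfold Angle_u
      have h1 : θ - (n : ℝ) * Real.pi = θ - j * (2 * Real.pi) := by
        rw [hj]; push_cast; ring
      rw [h1, Real.cos_sub_int_mul_two_pi, Real.sin_sub_int_mul_two_pi]
    · right
      rw [hθ]
      obtain ⟨j, hj⟩ := ho
      unfold Angle_u
      have h1 : θ - (n : ℝ) * Real.pi = (θ - Real.pi) - j * (2 * Real.pi) := by
        rw [hj]; push_cast; ring
      rw [h1, Real.cos_sub_int_mul_two_pi, Real.sin_sub_int_mul_two_pi, Real.cos_sub_pi,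
        Real.sin_sub_pi]
      ext i
      fin_cases i <;> simp

theorem Angle_abs_sin_le (x : ℝ) : |Real.sin x| ≤ |x| := Real.abs_sin_le_abs

theorem Angle_dd_neg (φ ψ : V 2) : dd (-φ) ψ = -dd φ ψ := by
  unfold dd
  simp only [Pi.neg_apply]
  ring

/-- ANGLE1: every unit vector is in a cell -/
theorem cell_exists (m : ℕ) (hm : 0 < m) (ν : V 2) (hν : sq ν = 1) :
    ∃ a < m, |dd ν (ea m a)| ≤ Real.pi / (2 * m) := by
  obtain ⟨θ, h0, h1, h⟩ := Angle_exists' ν hν
  have hpi := Real.pi_pos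
  have hm0 : (0 : ℝ) < m := by exact_mod_cast hm
  have hnn : 0 ≤ m * θ / Real.pi := by positivity
  refine ⟨⌊m * θ / Real.pi⌋₊, ?_, ?_⟩
  · rw [Nat.floor_lt hnn, div_lt_iff₀ hpi]
    exact mul_lt_mul_of_pos_left h1 hm0
  · set a := ⌊m * θ / Real.pi⌋₊ with ha
    have h2 : (a : ℝ) ≤ m * θ / Real.pi := Nat.floor_le hnn
    have h3 : m * θ / Real.pi < a + 1 := Nat.lt_floor_add_one _
    rw [le_div_iff₀ hpi] at h2
    rw [div_lt_iff₀ hpi] at h3
    have hmain : |dd (Angle_u θ) (ea m a)| ≤ Real.pi / (2 * m) := by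
      rw [Angle_ea_eq, Angle_dd_u]
      refine (Angle_abs_sin_le _).trans ?_
      have h4 : Real.pi * ((a : ℝ) + 1 / 2) / m - θ =
          (Real.pi * ((a : ℝ) + 1 / 2) - m * θ) / m := by
        field_simp
      rw [h4, abs_div, abs_of_pos hm0, div_le_div_iff₀ hm0 (by positivity)]
      have h5 : |Real.pi * ((a : ℝ) + 1 / 2) - m * θ| ≤ Real.pi / 2 := by
        rw [abs_le]
        constructor <;> nlinarith
      nlinarith
    rcases h with h | h
    · rw [h]; exact hmain
    · rw [h, Angle_dd_neg, abs_neg]; exact hmain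

/-- lower bound for the sine away from the multiples of `π` -/
theorem Angle_sin_ge {x : ℝ} (h0 : 0 ≤ x) (h1 : x ≤ Real.pi) :
    2 / Real.pi * min x (Real.pi - x) ≤ Real.sin x := by
  have hpi := Real.pi_pos
  rcases le_total x (Real.pi - x) with h | h
  · rw [min_eq_left h]
    exact Real.mul_le_sin h0 (by linarith)
  · rw [min_eq_right h, ← Real.sin_pi_sub]
    exact Real.mul_le_sin (by linarith) (by linarith)

theorem Angle_far_aux (b a a' : ℕ) (ha' : a' < 8 * b) (h1 : a + 4 ≤ a')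
    (h2 : a' + 4 ≤ a + 8 * b) :
    8 / ((8 * b : ℕ) : ℝ) ≤ |dd (ea (8 * b) a) (ea (8 * b) a')| := by
  have hpi := Real.pi_pos
  have hb : 0 < 8 * b := by omega
  have hm0 : (0 : ℝ) < ((8 * b : ℕ) : ℝ) := by exact_mod_cast hb
  set m : ℝ := ((8 * b : ℕ) : ℝ) with hm
  rw [Angle_ea_eq, Angle_ea_eq, Angle_dd_u]
  have e1 : (a : ℝ) + 4 ≤ a' := by exact_mod_cast h1
  have e2 : (a' : ℝ) + 4 ≤ a + m := by
    rw [hm]
    exact_mod_cast h2
  have h3 : Real.pi * ((a' : ℝ) + 1 / 2) / m - Real.pi * ((a : ℝ) + 1 / 2) / m =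
      Real.pi * ((a' : ℝ) - a) / m := by
    field_simp
    ring
  rw [h3]
  have hx0 : Real.pi * 4 / m ≤ Real.pi * ((a' : ℝ) - a) / m := by
    apply div_le_div_of_nonneg_right _ hm0.le
    nlinarith
  have hx1 : Real.pi * 4 / m ≤ Real.pi - Real.pi * ((a' : ℝ) - a) / m := by
    have h4 : Real.pi - Real.pi * ((a' : ℝ) - a) / m = Real.pi * (m - (a' - a)) / m := by
      field_simp
    rw [h4]
    apply div_le_div_of_nonneg_right _ hm0.le
    nlinarith
  have hpos : 0 < Real.pi * 4 / m := by positivity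
  have h5 := Angle_sin_ge (x := Real.pi * ((a' : ℝ) - a) / m) (by linarith) (by linarith)
  have h6 : Real.pi * 4 / m ≤ min (Real.pi * ((a' : ℝ) - a) / m)
      (Real.pi - Real.pi * ((a' : ℝ) - a) / m) := le_min hx0 hx1
  have h7 : 2 / Real.pi * (Real.pi * 4 / m) ≤ 2 / Real.pi * min (Real.pi * ((a' : ℝ) - a) / m)
      (Real.pi - Real.pi * ((a' : ℝ) - a) / m) :=
    mul_le_mul_of_nonneg_left h6 (by positivity)
  have h8 : 2 / Real.pi * (Real.pi * 4 / m) = 8 / m := by
    field_simp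
    ring
  rw [h8] at h7
  exact (h7.trans h5).trans (le_abs_self _)

theorem Angle_dd_comm (φ ψ : V 2) : dd φ ψ = -dd ψ φ := by
  unfold dd
  ring

/-- ANGLE2: far cells -/
theorem cell_far (b a a' : ℕ) (ha : a < 8 * b) (ha' : a' < 8 * b) (h : Far b a a') :
    8 / ((8 * b : ℕ) : ℝ) ≤ |dd (ea (8 * b) a) (ea (8 * b) a')| := by
  rcases h with h | h
  · exact Angle_far_aux b a a' ha' h.1 h.2
  · rw [Angle_dd_comm, abs_neg]
    exact Angle_far_aux b a' a ha h.1 h.2

/-- a cell of a block, unrolled -/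
theorem Angle_block (b o k a : ℕ) (hb : 100 ≤ b) (ho : o < b) (hk : k < 8) (ha : a < 8 * b)
    (h : InBlock b o k a) :
    ∃ t : ℕ, t < b + 7 ∧ (a = o + k * b + t ∨ a + 8 * b = o + k * b + t ∨
      a + 16 * b = o + k * b + t) := by
  have hb0 : 0 < b := by omega
  unfold InBlock at h
  set A := (a + 8 * b - o) % (8 * b) with hA
  have hAcases : a = A + o ∨ a + 8 * b = A + o := by
    have hlt : A < 8 * b := Nat.mod_lt _ (by omega)
    rcases Nat.lt_or_ge (a + 8 * b - o) (8 * b) with h1 | h1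
    · rw [Nat.mod_eq_of_lt h1] at hA
      right
      omega
    · have h2 : A = a - o := by
        rw [hA, Nat.mod_eq_sub_mod h1, Nat.mod_eq_of_lt (by omega)]
        omega
      left
      omega
  have hdm := Nat.div_add_mod A b
  have hr : A % b < b := Nat.mod_lt _ hb0
  rcases h with h | h
  · refine ⟨A % b, by omega, ?_⟩
    rw [h, mul_comm] at hdm
    omega
  · have h1 := h.1
    have h2 := h.2
    rcases Nat.lt_or_ge (k + 1) 8 with h4 | h4
    · rw [Nat.mod_eq_of_lt h4] at h1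
      refine ⟨b + A % b, by omega, ?_⟩
      rw [h1] at hdm
      have : b * (k + 1) = k * b + b := by ring
      omega
    · have h5 : k = 7 := by omega
      subst h5
      have h6 : A / b = 0 := by rw [h1]
      refine ⟨b + A % b, by omega, ?_⟩
      rw [h6, mul_zero, zero_add] at hdm
      omega

/-- ANGLE3: the cells of a block are close to a common direction -/
theorem block_center (b o k : ℕ) (hb : 100 ≤ b) (ho : o < b) (hk : k < 8) :
    ∃ ψ : V 2, sq ψ = 1 ∧ ∀ a < 8 * b, InBlock b o k a →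
      ∀ ν : V 2, sq ν = 1 → |dd ν (ea (8 * b) a)| ≤ Real.pi / (2 * ((8 * b : ℕ) : ℝ)) →
        |dd ν ψ| ≤ 1 / 4 := by
  have hpi := Real.pi_pos
  have hpi2 := Real.pi_lt_d2
  have hb0 : (0 : ℝ) < b := by exact_mod_cast (by omega : 0 < b)
  have hb100 : (100 : ℝ) ≤ b := by exact_mod_cast hb
  refine ⟨Angle_u (Real.pi * ((o : ℝ) + k * b + (b + 7) / 2) / (8 * b)), Angle_sq_u _, ?_⟩
  intro a ha hin ν hν hνa
  obtain ⟨t, ht, hat⟩ := Angle_block b o k a hb ho hk ha hin
  have htR : (t : ℝ) ≤ b + 6 := by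
    have : t ≤ b + 6 := by omega
    exact_mod_cast this
  have ht0 : (0 : ℝ) ≤ t := Nat.cast_nonneg t
  have hbound : |Real.sin (Real.pi * ((b + 6 : ℝ) / 2 - t) / (8 * b))| ≤
      Real.pi * (b + 6) / (16 * b) := by
    refine (Angle_abs_sin_le _).trans ?_
    have h8 : (0 : ℝ) < 8 * b := by positivity
    rw [abs_div, abs_of_pos h8, div_le_div_iff₀ h8 (by positivity), abs_mul, abs_of_pos hpi]
    have h9 : |(b + 6 : ℝ) / 2 - t| ≤ (b + 6) / 2 := by
      rw [abs_le]
      constructor <;> linarith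
    have h10 : Real.pi * |(b + 6 : ℝ) / 2 - t| ≤ Real.pi * ((b + 6) / 2) :=
      mul_le_mul_of_nonneg_left h9 hpi.le
    nlinarith
  have hmain : |dd (ea (8 * b) a) (Angle_u (Real.pi * ((o : ℝ) + k * b + (b + 7) / 2) / (8 * b)))|
      ≤ Real.pi * (b + 6) / (16 * b) := by
    rw [Angle_ea_eq, Angle_dd_u]
    have hcast : ((8 * b : ℕ) : ℝ) = 8 * b := by push_cast; ring
    rw [hcast]
    rcases hat with h | h | h
    · have h1 : (a : ℝ) = o + k * b + t := by exact_mod_cast h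
      have h2 : Real.pi * ((o : ℝ) + k * b + (b + 7) / 2) / (8 * b) -
          Real.pi * ((a : ℝ) + 1 / 2) / (8 * b) = Real.pi * ((b + 6 : ℝ) / 2 - t) / (8 * b) := by
        rw [h1]
        field_simp
        ring
      rw [h2]
      exact hbound
    · have h1 : (a : ℝ) + 8 * b = o + k * b + t := by exact_mod_cast h
      have h1' : (a : ℝ) = o + k * b + t - 8 * b := by linarith
      have h2 : Real.pi * ((o : ℝ) + k * b + (b + 7) / 2) / (8 * b) -
          Real.pi * ((a : ℝ) + 1 / 2) / (8 * b) =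
          Real.pi * ((b + 6 : ℝ) / 2 - t) / (8 * b) + Real.pi := by
        rw [h1']
        field_simp
        ring
      rw [h2, Real.sin_add_pi, abs_neg]
      exact hbound
    · have h1 : (a : ℝ) + 16 * b = o + k * b + t := by exact_mod_cast h
      have h1' : (a : ℝ) = o + k * b + t - 16 * b := by linarith
      have h2 : Real.pi * ((o : ℝ) + k * b + (b + 7) / 2) / (8 * b) -
          Real.pi * ((a : ℝ) + 1 / 2) / (8 * b) =
          Real.pi * ((b + 6 : ℝ) / 2 - t) / (8 * b) + 2 * Real.pi := by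
        rw [h1']
        field_simp
        ring
      rw [h2, Real.sin_add_two_pi]
      exact hbound
  have htri := dd_triangle ν (ea (8 * b) a)
    (Angle_u (Real.pi * ((o : ℝ) + k * b + (b + 7) / 2) / (8 * b))) hν (sq_ea _ _) (Angle_sq_u _)
  have hcast : ((8 * b : ℕ) : ℝ) = 8 * b := by push_cast; ring
  rw [hcast] at hνa
  have hsum : Real.pi / (2 * (8 * (b : ℝ))) + Real.pi * (b + 6) / (16 * b) ≤ 1 / 4 := by
    have h1 : Real.pi / (2 * (8 * (b : ℝ))) + Real.pi * (b + 6) / (16 * b) =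
        Real.pi * (b + 7) / (16 * b) := by
      field_simp
      ring
    rw [h1, div_le_iff₀ (by positivity)]
    nlinarith
  linarith

end Pl

end

end MPa20b56
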