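import Pool.Agent.Lib_MP_a20b56_pl.Defs

namespace MPa20b56

open scoped BigOperators Classical

noncomputable section

namespace Pl

/-- at most `2` blocks contain a given cell, only one unless the remainder is small -/
theorem Blocks_count (b o a : ℕ) (hb : 8 ≤ b) :
    ((Finset.range 8).filter (fun k => InBlock b o k a)).card ≤
      1 + (if ((a + 8 * b - o) % (8 * b)) % b < 7 then 1 else 0) := by
  set A := (a + 8 * b - o) % (8 * b) with hA
  have hA8 : A < 8 * b := Nat.mod_lt _ (by omega)
  have hQ : A / b < 8 := Nat.div_lt_of_lt_mul (by rw [mul_comm]; exact hA8)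
  by_cases h7 : A % b < 7
  · rw [if_pos h7]
    have hsub : (Finset.range 8).filter (fun k => InBlock b o k a) ⊆
        {A / b, (A / b + 7) % 8} := by
      intro k hk
      rw [Finset.mem_filter, Finset.mem_range] at hk
      rw [Finset.mem_insert, Finset.mem_singleton]
      rcases hk.2 with h | h
      · left
        exact h.symm
      · right
        have h1 := h.1
        rw [← hA] at h1
        omega
    exact (Finset.card_le_card hsub).trans Finset.card_le_two
  · rw [if_neg h7]
    have hsub : (Finset.range 8).filter (fun k => InBlock b o k a) ⊆ {A / b} := by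
      intro k hk
      rw [Finset.mem_filter, Finset.mem_range] at hk
      rw [Finset.mem_singleton]
      rcases hk.2 with h | h
      · exact h.symm
      · exact absurd h.2 h7
    exact (Finset.card_le_card hsub).trans (by simp)

theorem Blocks_offsets (b a : ℕ) (hb : 8 ≤ b) :
    ((Finset.range b).filter
      (fun o => ((a + 8 * b - o) % (8 * b)) % b < 7)).card ≤ 7 := by
  have hmap : ∀ o ∈ (Finset.range b).filter
      (fun o => ((a + 8 * b - o) % (8 * b)) % b < 7),
      (fun o => (a + 8 * b - o) % b) o ∈ Finset.range 7 := by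
    intro o ho
    rw [Finset.mem_filter, Finset.mem_range] at ho
    rw [Finset.mem_range]
    have h1 : ((a + 8 * b - o) % (8 * b)) % b = (a + 8 * b - o) % b :=
      Nat.mod_mod_of_dvd _ ⟨8, by ring⟩
    have h2 := ho.2
    rw [h1] at h2
    exact h2
  have key : ∀ o o' : ℕ, o ≤ o' → o' < b →
      (a + 8 * b - o) % b = (a + 8 * b - o') % b → o = o' := by
    intro o o' h1 h2 h3
    have h4 := Nat.sub_mod_eq_zero_of_mod_eq h3
    have h5 : a + 8 * b - o - (a + 8 * b - o') = o' - o := by omega
    rw [h5, Nat.mod_eq_of_lt (by omega)] at h4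
    omega
  have hinj : Set.InjOn (fun o => (a + 8 * b - o) % b)
      ((Finset.range b).filter
      (fun o => ((a + 8 * b - o) % (8 * b)) % b < 7) : Finset ℕ) := by
    intro o ho o' ho' h
    rw [Finset.mem_coe, Finset.mem_filter, Finset.mem_range] at ho ho'
    rcases le_total o o' with hle | hle
    · exact key o o' hle ho'.1 h
    · exact (key o' o hle ho.1 h.symm).symm
  have := Finset.card_le_card_of_injOn _ hmap hinj
  rwa [Finset.card_range] at this

/-- BLOCKS1: some offset has small overlap -/
theorem exists_offset (b : ℕ) (hb : 8 ≤ b) {ι : Type} (J : Finset ι) (a : ι → ℕ)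
    (ha : ∀ i ∈ J, a i < 8 * b) :
    ∃ o < b, b * ∑ k ∈ Finset.range 8, (J.filter (fun i => InBlock b o k (a i))).card
      ≤ (b + 7) * J.card := by
  by_contra hcon
  push Not at hcon
  -- exchange of the sums for a fixed offset
  have hS : ∀ o, ∑ k ∈ Finset.range 8, (J.filter (fun i => InBlock b o k (a i))).card ≤
      ∑ i ∈ J, (1 + (if ((a i + 8 * b - o) % (8 * b)) % b < 7 then 1 else 0)) := by
    intro o
    have h1 : ∑ k ∈ Finset.range 8, (J.filter (fun i => InBlock b o k (a i))).card =
        ∑ i ∈ J, ((Finset.range 8).filter (fun k => InBlock b o k (a i))).card := by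
      simp only [Finset.card_filter]
      exact Finset.sum_comm
    rw [h1]
    exact Finset.sum_le_sum fun i _ => Blocks_count b o (a i) hb
  have hsum : ∑ o ∈ Finset.range b,
      ∑ k ∈ Finset.range 8, (J.filter (fun i => InBlock b o k (a i))).card ≤
      (b + 7) * J.card := by
    refine (Finset.sum_le_sum fun o _ => hS o).trans ?_
    rw [Finset.sum_comm]
    have h2 : ∀ i ∈ J, ∑ o ∈ Finset.range b,
        (1 + (if ((a i + 8 * b - o) % (8 * b)) % b < 7 then 1 else 0)) ≤ b + 7 := by
      intro i _
      rw [Finset.sum_add_distrib]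
      simp only [Finset.sum_const, Finset.card_range, smul_eq_mul, mul_one]
      apply Nat.add_le_add_left
      rw [← Finset.card_filter]
      exact Blocks_offsets b (a i) hb
    refine (Finset.sum_le_sum h2).trans ?_
    rw [Finset.sum_const, smul_eq_mul, mul_comm]
  have hlow : ∑ o ∈ Finset.range b, ((b + 7) * J.card + 1) ≤ ∑ o ∈ Finset.range b,
      b * ∑ k ∈ Finset.range 8, (J.filter (fun i => InBlock b o k (a i))).card :=
    Finset.sum_le_sum fun o ho => hcon o (Finset.mem_range.1 ho)
  rw [← Finset.mul_sum, Finset.sum_const, Finset.card_range, smul_eq_mul] at hlow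
  have h3 := Nat.mul_le_mul_left b hsum
  have h4 : b * ((b + 7) * J.card + 1) = b * ((b + 7) * J.card) + b := by ring
  omega

theorem Blocks_shift (b o a1 a : ℕ) (hb : 8 ≤ b) (ho : o < b) (ha1 : a1 < 8 * b)
    (ha : a < 8 * b) (h : ¬ Far b a1 a) :
    ∃ t ≤ 6, (a + 8 * b - o) % (8 * b) =
      (((a1 + 8 * b - o - 3) % (8 * b)) + t) % (8 * b) := by
  unfold Far at h
  have hcases : (a < a1 + 4 ∧ a1 < a + 4) ∨ (a1 + 8 * b < a + 4) ∨ (a + 8 * b < a1 + 4) := by
    omega
  rcases hcases with h1 | h1 | h1
  · refine ⟨a + 3 - a1, by omega, ?_⟩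
    rw [Nat.mod_add_mod]
    congr 1
    omega
  · refine ⟨a + 3 - a1 - 8 * b, by omega, ?_⟩
    rw [Nat.mod_add_mod]
    have h2 : a1 + 8 * b - o - 3 + (a + 3 - a1 - 8 * b) = a - o := by omega
    have h3 : a + 8 * b - o = (a - o) + 8 * b := by omega
    rw [h2, h3, Nat.add_mod_right]
  · refine ⟨a + 8 * b + 3 - a1, by omega, ?_⟩
    rw [Nat.mod_add_mod]
    have h2 : a1 + 8 * b - o - 3 + (a + 8 * b + 3 - a1) = (a + 8 * b - o) + 8 * b := by omega
    rw [h2, Nat.add_mod_right]

theorem Blocks_split (b c t : ℕ) (hb : 8 ≤ b) (hc : c < 8 * b) (ht : t ≤ 6) :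
    ((c + t) % (8 * b)) / b = c / b ∨
      (((c + t) % (8 * b)) / b = (c / b + 1) % 8 ∧ ((c + t) % (8 * b)) % b < 7) := by
  have hb0 : 0 < b := by omega
  have hk : c / b < 8 := Nat.div_lt_of_lt_mul (by rw [mul_comm]; exact hc)
  have hr : c % b < b := Nat.mod_lt _ hb0
  have hcd := Nat.div_add_mod c b
  set k := c / b with hkdef
  set r := c % b with hrdef
  by_cases h1 : r + t < b
  · left
    have h2 : c + t < 8 * b := by
      have : b * (k + 1) ≤ b * 8 := Nat.mul_le_mul_left b (by omega)
      rw [mul_add, mul_one] at this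
      omega
    rw [Nat.mod_eq_of_lt h2]
    have h3 : c + t = b * k + (r + t) := by omega
    rw [h3, Nat.mul_add_div hb0, Nat.div_eq_of_lt h1, add_zero]
  · right
    have h3 : c + t = b * (k + 1) + (r + t - b) := by
      rw [mul_add, mul_one]
      omega
    have hlt : r + t - b < 7 := by omega
    rcases Nat.lt_or_ge (k + 1) 8 with h4 | h4
    · have h5 : c + t < 8 * b := by
        have : b * (k + 2) ≤ b * 8 := Nat.mul_le_mul_left b (by omega)
        have h6 : b * (k + 2) = b * (k + 1) + b := by ring
        omega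
      rw [Nat.mod_eq_of_lt h5, h3, Nat.mul_add_div hb0, Nat.div_eq_of_lt (by omega),
        add_zero, Nat.mul_add_mod, Nat.mod_eq_of_lt (by omega : r + t - b < b)]
      exact ⟨(Nat.mod_eq_of_lt h4).symm, hlt⟩
    · have h5 : k = 7 := by omega
      have h6 : (c + t) % (8 * b) = r + t - b := by
        have h7 : c + t = (r + t - b) + 8 * b := by
          rw [h3, h5]
          ring
        rw [h7, Nat.add_mod_right, Nat.mod_eq_of_lt (by omega)]
      have hlt2 : r + t - b < b := by omega
      refine ⟨?_, ?_⟩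
      · rw [h6, h5, Nat.div_eq_of_lt hlt2]
      · rw [h6, Nat.mod_eq_of_lt hlt2]
        exact hlt

/-- BLOCKS2: every cell has a block which contains all the cells which are not far from it -/
theorem near_in_block (b o a1 : ℕ) (hb : 8 ≤ b) (ho : o < b) (ha1 : a1 < 8 * b) :
    ∃ k < 8, ∀ a < 8 * b, ¬ Far b a1 a → InBlock b o k a := by
  refine ⟨((a1 + 8 * b - o - 3) % (8 * b)) / b, ?_, ?_⟩
  · apply Nat.div_lt_of_lt_mul
    rw [mul_comm b 8]
    exact Nat.mod_lt _ (by omega)
  · intro a ha hfar
    obtain ⟨t, ht, hA⟩ := Blocks_shift b o a1 a hb ho ha1 ha hfar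
    unfold InBlock
    rw [hA]
    exact Blocks_split b _ t hb (Nat.mod_lt _ (by omega)) ht

end Pl

end

end MPa20b56
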