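import Pool.Agent.Lib_MP_a20b56_co.Center
import Pool.Agent.Lib_MP_a20b56_pl.Defs

namespace MPa20b56

open scoped BigOperators Classical

noncomputable section

namespace Pl

/-- evaluation of a linear functional on the space of quadratic forms -/
theorem centerQ_ev (c : ℝ) (v : Fin 3 → ℝ) (y : V 3) :
    ev ((v, c) : Aff 3) y = v 0 * y 0 + v 1 * y 1 + v 2 * y 2 + c := by
  unfold ev
  rw [Fin.sum_univ_three]

/-- the coefficients of the quadratic form -/
def centerQ_y (u : Fin 2 → V 2) : V 3 :=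
  ![u 0 0 ^ 2 + u 1 0 ^ 2, u 0 0 * u 0 1 + u 1 0 * u 1 1, u 0 1 ^ 2 + u 1 1 ^ 2]

theorem centerQ_qf (u : Fin 2 → V 2) (φ : V 2) :
    qf u φ = centerQ_y u 0 * φ 0 ^ 2 + 2 * centerQ_y u 1 * (φ 0 * φ 1) +
      centerQ_y u 2 * φ 1 ^ 2 := by
  unfold qf dt centerQ_y
  simp only [Matrix.cons_val_zero, Matrix.cons_val_one, Matrix.cons_val]
  ring

theorem centerQ_pos (u : Fin 2 → V 2) (hu : dd (u 0) (u 1) ≠ 0) (φ : V 2)
    (hφ : φ 0 ≠ 0 ∨ φ 1 ≠ 0) : 0 < qf u φ := by
  by_contra hcon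
  push Not at hcon
  unfold qf at hcon
  have h0 : dt φ (u 0) = 0 := by nlinarith [sq_nonneg (dt φ (u 0)), sq_nonneg (dt φ (u 1))]
  have h1 : dt φ (u 1) = 0 := by nlinarith [sq_nonneg (dt φ (u 0)), sq_nonneg (dt φ (u 1))]
  unfold dt at h0 h1
  unfold dd at hu
  have e0 : φ 0 * (u 0 0 * u 1 1 - u 0 1 * u 1 0) = 0 := by
    linear_combination (u 1 1) * h0 - (u 0 1) * h1
  have e1 : φ 1 * (u 0 0 * u 1 1 - u 0 1 * u 1 0) = 0 := by
    linear_combination (u 0 0) * h1 - (u 1 0) * h0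
  rcases hφ with h | h
  · rcases mul_eq_zero.mp e0 with h' | h'
    · exact h h'
    · exact hu h'
  · rcases mul_eq_zero.mp e1 with h' | h'
    · exact h h'
    · exact hu h'

/-- CENTER: some basis of determinant one centres the shapes (centerpoint theorem in the space of
quadratic forms). -/
theorem center_basis {ι : Type} (J : Finset ι) (hJ : J.Nonempty) (u : ι → Fin 2 → V 2)
    (hu : ∀ j, dd (u j 0) (u j 1) ≠ 0) :
    ∃ w : Fin 2 → V 2, dd (w 0) (w 1) = 1 ∧ Centered (fun j i => co w (u j i)) J := by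
  obtain ⟨x, hx⟩ := centerpoint (d := 3) J hJ (fun j => centerQ_y (u j))
  have hQ : ∀ φ0 φ1 : ℝ, (φ0 ≠ 0 ∨ φ1 ≠ 0) →
      0 < x 0 * φ0 ^ 2 + 2 * x 1 * (φ0 * φ1) + x 2 * φ1 ^ 2 := by
    intro φ0 φ1 hφ
    by_contra hcon
    push Not at hcon
    have h1 := hx ((![φ0 ^ 2, 2 * (φ0 * φ1), φ1 ^ 2], 0) : Aff 3) (by
      rw [centerQ_ev]
      simp only [Matrix.cons_val_zero, Matrix.cons_val_one, Matrix.cons_val]
      linarith)
    have h2 : (J.filter (fun j => ev ((![φ0 ^ 2, 2 * (φ0 * φ1), φ1 ^ 2], 0) : Aff 3)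
        (centerQ_y (u j)) ≤ 0)) = ∅ := by
      rw [Finset.filter_eq_empty_iff]
      intro j _ hj
      rw [centerQ_ev] at hj
      simp only [Matrix.cons_val_zero, Matrix.cons_val_one, Matrix.cons_val] at hj
      have h3 := centerQ_pos (u j) (hu j) ![φ0, φ1] (by simpa using hφ)
      rw [centerQ_qf] at h3
      simp only [Matrix.cons_val_zero, Matrix.cons_val_one] at h3
      linarith
    rw [h2] at h1
    simp only [Finset.card_empty, Nat.cast_zero, mul_zero] at h1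
    have h4 : (0 : ℝ) < J.card := by exact_mod_cast hJ.card_pos
    linarith
  have hA : 0 < x 0 := by
    have := hQ 1 0 (Or.inl one_ne_zero)
    linarith
  have hD : 0 < x 0 * x 2 - x 1 ^ 2 := by
    have h1 := hQ (- x 1) (x 0) (Or.inr hA.ne')
    have h2 : x 0 * (- x 1) ^ 2 + 2 * x 1 * (- x 1 * x 0) + x 2 * x 0 ^ 2 =
        x 0 * (x 0 * x 2 - x 1 ^ 2) := by ring
    rw [h2] at h1
    exact (mul_pos_iff_of_pos_left hA).mp h1
  set s : ℝ := Real.sqrt (x 0 * x 2 - x 1 ^ 2) with hs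
  have hs0 : 0 < s := Real.sqrt_pos.mpr hD
  have hs2 : s ^ 2 = x 0 * x 2 - x 1 ^ 2 := Real.sq_sqrt hD.le
  set p : ℝ := Real.sqrt (x 0 / s) with hp
  have hp0 : 0 < p := Real.sqrt_pos.mpr (div_pos hA hs0)
  have hp2 : s * p ^ 2 = x 0 := by
    rw [hp, Real.sq_sqrt (div_pos hA hs0).le]
    field_simp
  refine ⟨![![p, x 1 / (s * p)], ![0, 1 / p]], ?_, ?_⟩
  · unfold dd
    simp only [Matrix.cons_val_zero, Matrix.cons_val_one]
    field_simp
    ring
  intro a ha
  -- the functional with coordinates `a0, a1`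
  have key : ∀ (b : V 2) (j : ι),
      qf (fun i => co ![![p, x 1 / (s * p)], ![0, 1 / p]] (u j i)) b =
        ev ((![(b 0 / p - b 1 * (x 1 / (s * p))) ^ 2,
          2 * ((b 0 / p - b 1 * (x 1 / (s * p))) * (b 1 * p)), (b 1 * p) ^ 2], 0) : Aff 3)
          (centerQ_y (u j)) := by
    intro b j
    rw [centerQ_ev]
    unfold qf dt co dd centerQ_y
    simp only [Matrix.cons_val_zero, Matrix.cons_val_one, Matrix.cons_val]
    field_simp
    ring
  have htr : ∀ j : ι, tr2 (fun i => co ![![p, x 1 / (s * p)], ![0, 1 / p]] (u j i)) =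
      qf (fun i => co ![![p, x 1 / (s * p)], ![0, 1 / p]] (u j i)) ![1, 0] +
      qf (fun i => co ![![p, x 1 / (s * p)], ![0, 1 / p]] (u j i)) ![0, 1] := by
    intro j
    unfold tr2 qf dt sq
    simp only [Matrix.cons_val_zero, Matrix.cons_val_one]
    ring
  have hx2 : x 2 * p ^ 2 = s + x 1 ^ 2 / s := by
    field_simp
    have h1 : x 2 * x 0 = s ^ 2 + x 1 ^ 2 := by rw [hs2]; ring
    rw [← hp2] at h1
    linear_combination h1
  set g : V 2 → V 3 := fun b => ![(b 0 / p - b 1 * (x 1 / (s * p))) ^ 2,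
          2 * ((b 0 / p - b 1 * (x 1 / (s * p))) * (b 1 * p)), (b 1 * p) ^ 2] with hg
  have hval : ∀ b : V 2, ev ((g b, 0) : Aff 3) x = s * sq b := by
    intro b
    rw [centerQ_ev, hg]
    simp only [Matrix.cons_val_zero, Matrix.cons_val_one, Matrix.cons_val]
    have e1 : (b 0 / p - b 1 * (x 1 / (s * p))) ^ 2 * x 0 = s * (b 0 - b 1 * (x 1 / s)) ^ 2 := by
      rw [← hp2]
      field_simp
    have e2 : 2 * ((b 0 / p - b 1 * (x 1 / (s * p))) * (b 1 * p)) * x 1 =
        2 * (b 0 - b 1 * (x 1 / s)) * b 1 * x 1 := by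
      field_simp
    have e3 : (b 1 * p) ^ 2 * x 2 = b 1 ^ 2 * (s + x 1 ^ 2 / s) := by
      rw [← hx2]
      ring
    rw [e1, e2, e3]
    unfold sq
    field_simp
    ring
  have hlin : ∀ y : V 3, ev ((fun i => (g ![1, 0] i + g ![0, 1] i) / 4 - g a i, 0) : Aff 3) y =
      (ev ((g ![1, 0], 0) : Aff 3) y + ev ((g ![0, 1], 0) : Aff 3) y) / 4 -
        ev ((g a, 0) : Aff 3) y := by
    intro y
    rw [centerQ_ev, centerQ_ev, centerQ_ev, centerQ_ev]
    ring
  have hfin := hx ((fun i => (g ![1, 0] i + g ![0, 1] i) / 4 - g a i, 0) : Aff 3) (by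
    rw [hlin, hval, hval, hval, ha]
    unfold sq
    simp only [Matrix.cons_val_zero, Matrix.cons_val_one]
    nlinarith)
  have hset : (J.filter (fun j => ev ((fun i => (g ![1, 0] i + g ![0, 1] i) / 4 - g a i, 0) : Aff 3)
      (centerQ_y (u j)) ≤ 0)) = (J.filter (fun j =>
      ¬ 4 * qf (fun i => co ![![p, x 1 / (s * p)], ![0, 1 / p]] (u j i)) a <
        tr2 (fun i => co ![![p, x 1 / (s * p)], ![0, 1 / p]] (u j i)))) := by
    apply Finset.filter_congr
    intro j _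
    rw [hlin, htr, key, key, key]
    constructor
    · intro h
      push Not
      linarith
    · intro h
      push Not at h
      linarith
  rw [hset] at hfin
  have hsum := Finset.card_filter_add_card_filter_not (s := J) (fun j =>
      4 * qf (fun i => co ![![p, x 1 / (s * p)], ![0, 1 / p]] (u j i)) a <
        tr2 (fun i => co ![![p, x 1 / (s * p)], ![0, 1 / p]] (u j i)))
  have hfin' : (J.card : ℝ) ≤ 4 * ((J.filter (fun j =>
      ¬ 4 * qf (fun i => co ![![p, x 1 / (s * p)], ![0, 1 / p]] (u j i)) a <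
        tr2 (fun i => co ![![p, x 1 / (s * p)], ![0, 1 / p]] (u j i)))).card : ℝ) := by
    have : ((3 : ℕ) : ℝ) + 1 = 4 := by norm_num
    rw [this] at hfin
    exact hfin
  have hfin'' : J.card ≤ 4 * (J.filter (fun j =>
      ¬ 4 * qf (fun i => co ![![p, x 1 / (s * p)], ![0, 1 / p]] (u j i)) a <
        tr2 (fun i => co ![![p, x 1 / (s * p)], ![0, 1 / p]] (u j i)))).card := by
    exact_mod_cast hfin'
  show 4 * (J.filter (fun j =>
      4 * qf (fun i => co ![![p, x 1 / (s * p)], ![0, 1 / p]] (u j i)) a <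
        tr2 (fun i => co ![![p, x 1 / (s * p)], ![0, 1 / p]] (u j i)))).card ≤ 3 * J.card
  omega

end Pl

end

end MPa20b56
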