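import Pool.Agent.Lib_MP_a20b56_pl.Defs

namespace MPa20b56

open scoped BigOperators Classical

noncomputable section

namespace Pl

/-- COMPACT: approximate transversals of size `≤ N` of a finite family of compact sets converge to
an exact transversal of size `≤ N`. -/
theorem compact_transversal {d : ℕ} {ι : Type} (I : Finset ι) (K : ι → Set (V d))
    (hK : ∀ i ∈ I, IsCompact (K i)) (N : ℕ)
    (h : ∀ η : ℝ, 0 < η → ∃ S : Finset (V d), S.card ≤ N ∧
      ∀ i ∈ I, ∃ y ∈ S, ∃ z ∈ K i, dist y z ≤ η) :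
    ∃ S : Finset (V d), S.card ≤ N ∧ ∀ i ∈ I, ∃ y ∈ S, y ∈ K i := by
  have hk : ∀ k : ℕ, (0 : ℝ) < 1 / ((k : ℝ) + 1) := fun k => by positivity
  choose S hS hI using fun k : ℕ => h (1 / ((k : ℝ) + 1)) (hk k)
  choose y hy z hz hd using fun (k : ℕ) (i : {i // i ∈ I}) => hI k i.1 i.2
  have hcomp : IsCompact (Set.pi Set.univ fun i : {i // i ∈ I} => K i.1) :=
    isCompact_univ_pi fun i => hK i.1 i.2
  obtain ⟨z0, hz0, φ, hφ, hlim⟩ := hcomp.tendsto_subseq (x := z) fun k i _ => hz k i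
  have hlimi : ∀ i, Filter.Tendsto (fun k => z (φ k) i) Filter.atTop (nhds (z0 i)) :=
    fun i => (tendsto_pi_nhds.1 hlim) i
  have hyi : ∀ i, Filter.Tendsto (fun k => y (φ k) i) Filter.atTop (nhds (z0 i)) := by
    intro i
    have h1 : Filter.Tendsto (fun k : ℕ => 1 / (((φ k : ℕ) : ℝ) + 1)) Filter.atTop (nhds 0) :=
      tendsto_one_div_add_atTop_nhds_zero_nat.comp hφ.tendsto_atTop
    have h2 : Filter.Tendsto (fun k => dist (y (φ k) i) (z (φ k) i)) Filter.atTop (nhds 0) :=
      squeeze_zero (fun k => dist_nonneg) (fun k => hd (φ k) i) h1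
    exact (tendsto_iff_of_dist h2).2 (hlimi i)
  have hev : ∀ᶠ k in Filter.atTop, ∀ i i', z0 i ≠ z0 i' → y (φ k) i ≠ y (φ k) i' := by
    rw [Filter.eventually_all]
    intro i
    rw [Filter.eventually_all]
    intro i'
    by_cases hne : z0 i = z0 i'
    · exact Filter.Eventually.of_forall fun k hc => absurd hne hc
    · filter_upwards [((hyi i).sub (hyi i')).eventually_ne (sub_ne_zero.2 hne)] with k hk _
      exact sub_ne_zero.1 hk
  obtain ⟨k, hkk⟩ := hev.exists
  refine ⟨Finset.univ.image z0, ?_, fun i hi =>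
    ⟨z0 ⟨i, hi⟩, Finset.mem_image_of_mem _ (Finset.mem_univ _), hz0 ⟨i, hi⟩ (Set.mem_univ _)⟩⟩
  have hfac : Function.FactorsThrough z0 (y (φ k)) := by
    intro i i' hii
    by_contra hc
    exact hkk i i' hc hii
  have h3 : (Finset.univ.image z0) ⊆
      (S (φ k)).image (Function.extend (y (φ k)) z0 fun _ => 0) := by
    intro v hv
    rw [Finset.mem_image] at hv
    obtain ⟨i, -, rfl⟩ := hv
    rw [Finset.mem_image]
    exact ⟨y (φ k) i, hy (φ k) i, hfac.extend_apply _ i⟩
  exact (Finset.card_le_card h3).trans (Finset.card_image_le.trans (hS (φ k)))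

end Pl

end

end MPa20b56
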