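import Pool.Agent.Lib_MP_a20b56_pl.Defs

namespace MPa20b56

set_option linter.unusedVariables false

open scoped BigOperators Classical

noncomputable section

namespace Pl

lemma cone_sq (φ e : V 2) (he : sq e = 1) : dd φ e ^ 2 + dt φ e ^ 2 = sq φ := by
  have h : dd φ e ^ 2 + dt φ e ^ 2 = sq φ * sq e := by
    unfold dd dt sq; ring
  rw [h, he, mul_one]

lemma cone_N1_nonneg (φ : V 2) : 0 ≤ N1 φ := by
  unfold N1; positivity

lemma cone_sq_le_N1 (φ : V 2) : sq φ ≤ N1 φ ^ 2 := by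
  unfold sq N1
  have h0 := abs_nonneg (φ 0)
  have h1 := abs_nonneg (φ 1)
  have e0 := sq_abs (φ 0)
  have e1 := sq_abs (φ 1)
  nlinarith [mul_nonneg h0 h1]

lemma cone_N1_sq_le (φ : V 2) : N1 φ ^ 2 ≤ 2 * sq φ := by
  unfold sq N1
  have e0 := sq_abs (φ 0)
  have e1 := sq_abs (φ 1)
  nlinarith [sq_nonneg (|φ 0| - |φ 1|)]

lemma cone_dt_le_N1 (φ e : V 2) (he : sq e = 1) : |dt φ e| ≤ N1 φ := by
  apply abs_le_of_sq_le_sq _ (cone_N1_nonneg φ)
  have h1 := cone_sq φ e he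
  have h2 := cone_sq_le_N1 φ
  nlinarith [sq_nonneg (dd φ e)]

lemma cone_ne {φ e : V 2} {τ : ℝ} (he : sq e = 1) (hφ : φ ≠ 0)
    (hc : |dd φ e| ≤ τ * |dt φ e|) : dt φ e ≠ 0 := by
  intro h0
  rw [h0, abs_zero, mul_zero] at hc
  have hd : dd φ e = 0 := abs_eq_zero.1 (le_antisymm hc (abs_nonneg _))
  have h1 := cone_sq φ e he
  rw [h0, hd] at h1
  apply hφ
  unfold sq at h1
  have a0 : φ 0 = 0 := by nlinarith [sq_nonneg (φ 0), sq_nonneg (φ 1)]
  have a1 : φ 1 = 0 := by nlinarith [sq_nonneg (φ 0), sq_nonneg (φ 1)]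
  ext i
  fin_cases i
  · exact a0
  · exact a1

lemma cone_N1_le {φ e : V 2} {τ : ℝ} (he : sq e = 1) (hτ0 : 0 ≤ τ) (hτ : τ ≤ 1 / 4)
    (hc : |dd φ e| ≤ τ * |dt φ e|) : N1 φ ≤ 3 / 2 * |dt φ e| := by
  have h1 := cone_sq φ e he
  have h2 := cone_N1_sq_le φ
  have hP := abs_nonneg (dt φ e)
  have hD := abs_nonneg (dd φ e)
  have hc' : |dd φ e| ≤ 1 / 4 * |dt φ e| :=
    hc.trans (mul_le_mul_of_nonneg_right hτ hP)
  have e1 := sq_abs (dt φ e)
  have e2 := sq_abs (dd φ e)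
  refine abs_le_of_sq_le_sq' ?_ (by positivity) |>.2
  nlinarith

lemma cone_meet {φ e e' : V 2} {τ : ℝ} (he : sq e = 1) (he' : sq e' = 1) (hτ0 : 0 ≤ τ)
    (hφ : φ ≠ 0) (h4 : 2 * τ < |dd e e'|) (hc : |dd φ e| ≤ τ * |dt φ e|) :
    τ * |dt φ e'| < |dd φ e'| := by
  by_contra hcon
  push Not at hcon
  have hP0 := cone_ne he hφ hc
  have hid : dt φ e * dd φ e' - dd φ e * dt φ e' = sq φ * dd e e' := by
    unfold dd dt sq; ring
  have h1 := cone_sq φ e he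
  have h2 := cone_sq φ e' he'
  have hsq : 0 < sq φ := by
    rw [← h1]; positivity
  have habs : |sq φ * dd e e'| ≤ |dt φ e| * |dd φ e'| + |dd φ e| * |dt φ e'| := by
    rw [← hid, ← abs_mul, ← abs_mul]
    exact abs_sub _ _
  rw [abs_mul, abs_of_pos hsq] at habs
  have hP := abs_nonneg (dt φ e)
  have hP' := abs_nonneg (dt φ e')
  have b1 : |dt φ e| * |dd φ e'| ≤ |dt φ e| * (τ * |dt φ e'|) :=
    mul_le_mul_of_nonneg_left hcon hP
  have b2 : |dd φ e| * |dt φ e'| ≤ (τ * |dt φ e|) * |dt φ e'| :=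
    mul_le_mul_of_nonneg_right hc hP'
  have b3 : |dt φ e| * |dt φ e'| ≤ sq φ := by
    have e1 := sq_abs (dt φ e)
    have e2 := sq_abs (dt φ e')
    nlinarith [sq_nonneg (|dt φ e| - |dt φ e'|), sq_nonneg (dd φ e), sq_nonneg (dd φ e')]
  have b4 : sq φ * |dd e e'| ≤ 2 * τ * sq φ := by
    calc sq φ * |dd e e'| ≤ |dt φ e| * |dd φ e'| + |dd φ e| * |dt φ e'| := habs
      _ ≤ |dt φ e| * (τ * |dt φ e'|) + (τ * |dt φ e|) * |dt φ e'| := by linarith
      _ = 2 * τ * (|dt φ e| * |dt φ e'|) := by ring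
      _ ≤ 2 * τ * sq φ := mul_le_mul_of_nonneg_left b3 (by linarith)
  have b5 : sq φ * |dd e e'| ≤ sq φ * (2 * τ) := by linarith
  have b6 := le_of_mul_le_mul_left b5 hsq
  linarith

lemma cone_dt_add (φ x y : V 2) : dt φ (x + y) = dt φ x + dt φ y := by
  unfold dt; simp only [Pi.add_apply]; ring

lemma cone_dt_smul (φ x : V 2) (c : ℝ) : dt φ (c • x) = c * dt φ x := by
  unfold dt; simp only [Pi.smul_apply, smul_eq_mul]; ring

lemma cone_dt_sub (φ x y : V 2) : dt φ (x - y) = dt φ x - dt φ y := by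
  unfold dt; simp only [Pi.sub_apply]; ring

/-- the one-sided lemma, with the sign `s` of the first functional -/
lemma cone_side_aux (ρ κ τ : ℝ) (hρ : 0 < ρ) (hκ0 : 0 < κ) (hκ : κ ≤ ρ / 8) (hτ0 : 0 ≤ τ)
    (hτ : τ ≤ 1 / 4) (e e' x x' : V 2) (he : sq e = 1) (he' : sq e' = 1) (H : V 2 → ℝ)
    (h1 : ∀ φ, dt φ x ≤ H φ)
    (h2 : ∀ φ, τ * |dt φ e| < |dd φ e| → dt φ x + ρ * N1 φ ≤ H φ)
    (h2' : ∀ φ, τ * |dt φ e'| < |dd φ e'| → dt φ x' + ρ * N1 φ ≤ H φ)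
    (h4 : 2 * τ < |dd e e'|) (φ : V 2) (hφ : H φ < dt φ x + κ * N1 φ) (s : ℝ)
    (hs : s = 1 ∨ s = -1) (hsP : 0 ≤ s * dt φ e)
    (hf : ¬ ∀ φ, dt φ (x + (-s * (ρ / 2)) • e) + κ * N1 φ ≤ H φ) :
    ∃ ψ : V 2, ψ ≠ 0 ∧ |dd ψ e| ≤ τ * |dt ψ e| ∧ dt ψ (x' - x) = 0 ∧ x' - x ≠ 0 := by
  have hφ0 : φ ≠ 0 := by
    rintro rfl
    have := h1 0
    have hN : N1 (0 : V 2) = 0 := by simp [N1]
    rw [hN] at hφ
    linarith
  have hcφ : |dd φ e| ≤ τ * |dt φ e| := by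
    by_contra hcon
    push Not at hcon
    have a1 := h2 φ hcon
    have a2 := cone_N1_nonneg φ
    nlinarith
  have hPφ := cone_ne he hφ0 hcφ
  have hmφ := cone_meet he he' hτ0 hφ0 h4 hcφ
  have hN0 := cone_N1_nonneg φ
  have hNpos : 0 < N1 φ := by
    have a1 := cone_dt_le_N1 φ e he
    have a2 : 0 < |dt φ e| := abs_pos.2 hPφ
    linarith
  have hw1 : dt φ (x' - x) < 0 := by
    have a1 := h2' φ hmφ
    rw [cone_dt_sub]
    nlinarith
  have hsabs : |s| = 1 := by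
    rcases hs with h | h <;> rw [h] <;> simp
  have hss : s * s = 1 := by
    rcases hs with h | h <;> rw [h] <;> norm_num
  have hsPφ : s * dt φ e = |dt φ e| := by
    rw [← abs_of_nonneg hsP, abs_mul, hsabs, one_mul]
  -- second functional
  push Not at hf
  obtain ⟨φ', hφ'⟩ := hf
  rw [cone_dt_add, cone_dt_smul] at hφ'
  set P' : ℝ := dt φ' e with hP'
  have hN' := cone_N1_nonneg φ'
  have hPN' := cone_dt_le_N1 φ' e he
  rw [← hP'] at hPN'
  have hsP' : |s * P'| = |P'| := by rw [abs_mul, hsabs, one_mul]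
  have hle1 : -(s * P') ≤ |P'| := by
    rw [← hsP']; exact neg_le_abs _
  have hcφ' : |dd φ' e| ≤ τ * |P'| := by
    by_contra hcon
    push Not at hcon
    have a1 := h2 φ' hcon
    nlinarith
  have hneg : s * P' < 0 := by
    by_contra hcon
    push Not at hcon
    have a1 := h1 φ'
    have a2 := cone_N1_le he hτ0 hτ hcφ'
    rw [← hP'] at a2
    have a3 : s * P' = |P'| := by rw [← abs_of_nonneg hcon, hsP']
    have a4 := abs_nonneg P'
    nlinarith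
  have hφ'0 : φ' ≠ 0 := by
    rintro rfl
    have : P' = 0 := by rw [hP']; simp [dt]
    rw [this, mul_zero] at hneg
    exact lt_irrefl _ hneg
  have hmφ' := cone_meet he he' hτ0 hφ'0 h4 hcφ'
  have hNpos' : 0 < N1 φ' := by
    have a2 : 0 < |P'| := by
      apply abs_pos.2
      intro h0
      rw [h0, mul_zero] at hneg
      exact lt_irrefl _ hneg
    linarith
  have hw2 : dt φ' (x' - x) < 0 := by
    have a1 := h2' φ' hmφ'
    rw [cone_dt_sub]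
    nlinarith
  set α : ℝ := -dt φ' (x' - x) with hα
  set β : ℝ := -dt φ (x' - x) with hβ
  have hα0 : 0 < α := by linarith
  have hβ0 : 0 < β := by linarith
  have hsP'' : -(s * P') = |P'| := by
    rw [← hsP', abs_of_neg hneg]
  -- psi = α φ - β φ'
  have hdt : dt (α • φ - β • φ') e = α * dt φ e - β * P' := by
    rw [hP']; unfold dt; simp only [Pi.sub_apply, Pi.smul_apply, smul_eq_mul]; ring
  have hdd : dd (α • φ - β • φ') e = α * dd φ e - β * dd φ' e := by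
    unfold dd; simp only [Pi.sub_apply, Pi.smul_apply, smul_eq_mul]; ring
  have hspos : 0 < s * dt (α • φ - β • φ') e := by
    rw [hdt]
    have a1 : s * (α * dt φ e - β * P') = α * (s * dt φ e) + β * (-(s * P')) := by ring
    rw [a1, hsPφ, hsP'']
    have a2 : 0 < |dt φ e| := abs_pos.2 hPφ
    have a3 := abs_nonneg P'
    positivity
  refine ⟨α • φ - β • φ', ?_, ?_, ?_, ?_⟩
  · intro h0
    rw [h0] at hspos
    simp [dt] at hspos
  · have a1 : |dt (α • φ - β • φ') e| = s * dt (α • φ - β • φ') e := by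
      rw [← abs_of_pos hspos, abs_mul, hsabs, one_mul]
    rw [a1, hdt, hdd]
    have a2 : s * (α * dt φ e - β * P') = α * (s * dt φ e) + β * (-(s * P')) := by ring
    rw [a2, hsPφ, hsP'']
    calc |α * dd φ e - β * dd φ' e| ≤ |α * dd φ e| + |β * dd φ' e| := abs_sub _ _
      _ = α * |dd φ e| + β * |dd φ' e| := by
        rw [abs_mul, abs_mul, abs_of_pos hα0, abs_of_pos hβ0]
      _ ≤ α * (τ * |dt φ e|) + β * (τ * |P'|) :=
        add_le_add (mul_le_mul_of_nonneg_left hcφ hα0.le)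
          (mul_le_mul_of_nonneg_left hcφ' hβ0.le)
      _ = τ * (α * |dt φ e| + β * |P'|) := by ring
  · have a1 : dt (α • φ - β • φ') (x' - x)
        = α * dt φ (x' - x) - β * dt φ' (x' - x) := by
      unfold dt; simp only [Pi.sub_apply, Pi.smul_apply, smul_eq_mul]; ring
    rw [a1, hα, hβ]; ring
  · intro h0
    rw [h0] at hw1
    simp [dt] at hw1

/-- the one-sided lemma -/
lemma cone_side (ρ κ τ : ℝ) (hρ : 0 < ρ) (hκ0 : 0 < κ) (hκ : κ ≤ ρ / 8) (hτ0 : 0 ≤ τ)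
    (hτ : τ ≤ 1 / 4) (e e' x x' : V 2) (he : sq e = 1) (he' : sq e' = 1) (H : V 2 → ℝ)
    (h1 : ∀ φ, dt φ x ≤ H φ)
    (h2 : ∀ φ, τ * |dt φ e| < |dd φ e| → dt φ x + ρ * N1 φ ≤ H φ)
    (h2' : ∀ φ, τ * |dt φ e'| < |dd φ e'| → dt φ x' + ρ * N1 φ ≤ H φ)
    (h4 : 2 * τ < |dd e e'|) (f0 : ¬ ∀ φ, dt φ x + κ * N1 φ ≤ H φ)
    (fp : ¬ ∀ φ, dt φ (x + (ρ / 2) • e) + κ * N1 φ ≤ H φ)
    (fm : ¬ ∀ φ, dt φ (x - (ρ / 2) • e) + κ * N1 φ ≤ H φ) :
    ∃ ψ : V 2, ψ ≠ 0 ∧ |dd ψ e| ≤ τ * |dt ψ e| ∧ dt ψ (x' - x) = 0 ∧ x' - x ≠ 0 := by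
  push Not at f0
  obtain ⟨φ, hφ⟩ := f0
  rcases le_total 0 (dt φ e) with hs | hs
  · refine cone_side_aux ρ κ τ hρ hκ0 hκ hτ0 hτ e e' x x' he he' H h1 h2 h2' h4 φ hφ 1
      (Or.inl rfl) (by linarith) ?_
    have : x + (-1 * (ρ / 2)) • e = x - (ρ / 2) • e := by
      rw [neg_one_mul, neg_smul, sub_eq_add_neg]
    rw [this]
    exact fm
  · refine cone_side_aux ρ κ τ hρ hκ0 hκ hτ0 hτ e e' x x' he he' H h1 h2 h2' h4 φ hφ (-1)
      (Or.inr rfl) (by linarith) ?_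
    have : x + (-(-1) * (ρ / 2)) • e = x + (ρ / 2) • e := by
      rw [neg_neg, one_mul]
    rw [this]
    exact fp

/-- CONE: the double cone lemma. `H` is a support function; `x` is deep in all directions outside
the double cone around `e`, `x'` in all directions outside the double cone around `e'`, and the two
double cones meet only in `0`. Then a small box around one of six points is below `H`. -/
theorem cone_kill (ρ κ τ : ℝ) (hρ : 0 < ρ) (hκ0 : 0 < κ) (hκ : κ ≤ ρ / 8) (hτ0 : 0 ≤ τ)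
    (hτ : τ ≤ 1 / 4) (e e' x x' : V 2) (he : sq e = 1) (he' : sq e' = 1) (H : V 2 → ℝ)
    (h1 : ∀ φ, dt φ x ≤ H φ) (h1' : ∀ φ, dt φ x' ≤ H φ)
    (h2 : ∀ φ, τ * |dt φ e| < |dd φ e| → dt φ x + ρ * N1 φ ≤ H φ)
    (h2' : ∀ φ, τ * |dt φ e'| < |dd φ e'| → dt φ x' + ρ * N1 φ ≤ H φ)
    (h4 : 2 * τ < |dd e e'|) :
    ∃ z : V 2, (z = x ∨ z = x + (ρ / 2) • e ∨ z = x - (ρ / 2) • e ∨
      z = x' ∨ z = x' + (ρ / 2) • e' ∨ z = x' - (ρ / 2) • e') ∧
      ∀ φ, dt φ z + κ * N1 φ ≤ H φ := by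
  by_contra hcon
  push Not at hcon
  have hno : ∀ z : V 2, (z = x ∨ z = x + (ρ / 2) • e ∨ z = x - (ρ / 2) • e ∨
      z = x' ∨ z = x' + (ρ / 2) • e' ∨ z = x' - (ρ / 2) • e') →
      ¬ ∀ φ, dt φ z + κ * N1 φ ≤ H φ := by
    intro z hz hall
    obtain ⟨φ, hφ⟩ := hcon z hz
    exact absurd (hall φ) (not_le.2 hφ)
  have h4' : 2 * τ < |dd e' e| := by
    have : dd e' e = -dd e e' := by unfold dd; ring
    rw [this, abs_neg]; exact h4
  obtain ⟨ψ, hψ0, hψc, hψw, hw⟩ := cone_side ρ κ τ hρ hκ0 hκ hτ0 hτ e e' x x' he he' H h1 h2 h2' h4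
    (hno _ (by tauto)) (hno _ (by tauto)) (hno _ (by tauto))
  obtain ⟨ψ', hψ'0, hψ'c, hψ'w, hw'⟩ := cone_side ρ κ τ hρ hκ0 hκ hτ0 hτ e' e x' x he' he H h1' h2'
    h2 h4' (hno _ (by tauto)) (hno _ (by tauto)) (hno _ (by tauto))
  -- w ≠ 0, psi, psi' both orthogonal to w
  set w : V 2 := x' - x with hwdef
  have hψ'w2 : dt ψ' w = 0 := by
    have : x - x' = (-1 : ℝ) • w := by rw [hwdef]; simp
    rw [this, cone_dt_smul] at hψ'w
    linarith
  have hwne : w 0 ≠ 0 ∨ w 1 ≠ 0 := by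
    by_contra hc
    push Not at hc
    apply hw
    ext i
    fin_cases i
    · exact hc.1
    · exact hc.2
  have hpar : dd ψ ψ' = 0 := by
    have e1 : w 0 * dd ψ ψ' = dt ψ w * ψ' 1 - dt ψ' w * ψ 1 := by unfold dd dt; ring
    have e2 : w 1 * dd ψ ψ' = dt ψ' w * ψ 0 - dt ψ w * ψ' 0 := by unfold dd dt; ring
    rw [hψw, hψ'w2] at e1 e2
    rcases hwne with h | h
    · have : w 0 * dd ψ ψ' = 0 := by rw [e1]; ring
      exact (mul_eq_zero.1 this).resolve_left h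
    · have : w 1 * dd ψ ψ' = 0 := by rw [e2]; ring
      exact (mul_eq_zero.1 this).resolve_left h
  -- psi' is in the cone of e too
  have hmeet := cone_meet he he' hτ0 hψ0 h4 hψc
  -- sq psi' * (dd psi e', dt psi e') is proportional to (dd psi' e', dt psi' e')
  have e3 : sq ψ * dd ψ' e' = dt ψ ψ' * dd ψ e' - dd ψ ψ' * dt ψ e' := by
    unfold sq dd dt; ring
  have e4 : sq ψ * dt ψ' e' = dt ψ ψ' * dt ψ e' + dd ψ ψ' * dd ψ e' := by
    unfold sq dd dt; ring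
  rw [hpar, zero_mul, sub_zero] at e3
  rw [hpar, zero_mul, add_zero] at e4
  have hsqψ : 0 < sq ψ := by
    have a1 := cone_sq ψ e he
    have a2 := cone_ne he hψ0 hψc
    rw [← a1]; positivity
  have a3 : sq ψ * |dd ψ' e'| = |dt ψ ψ'| * |dd ψ e'| := by
    rw [← abs_mul, ← e3, abs_mul, abs_of_pos hsqψ]
  have a4 : sq ψ * |dt ψ' e'| = |dt ψ ψ'| * |dt ψ e'| := by
    rw [← abs_mul, ← e4, abs_mul, abs_of_pos hsqψ]
  have a5 : dt ψ' e' ≠ 0 := cone_ne he' hψ'0 hψ'c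
  have a6 : 0 < |dt ψ ψ'| := by
    apply lt_of_le_of_ne (abs_nonneg _)
    intro h0
    rw [← h0, zero_mul] at a4
    have := mul_pos hsqψ (abs_pos.2 a5)
    linarith
  have a7 : |dt ψ ψ'| * |dd ψ e'| ≤ |dt ψ ψ'| * (τ * |dt ψ e'|) := by
    rw [← a3]
    calc sq ψ * |dd ψ' e'| ≤ sq ψ * (τ * |dt ψ' e'|) := mul_le_mul_of_nonneg_left hψ'c hsqψ.le
      _ = τ * (sq ψ * |dt ψ' e'|) := by ring
      _ = |dt ψ ψ'| * (τ * |dt ψ e'|) := by rw [a4]; ring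
  have a8 := le_of_mul_le_mul_left a7 a6
  linarith

end Pl

end

end MPa20b56
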