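import Pool.Agent.Lib_MP_a20b56_pl.Compact

namespace MPa20b56

open scoped BigOperators Classical
open MeasureTheory

noncomputable section

namespace Pl

/-- the unit cube with lower corner `R p` -/
def lptCube {d : ℕ} (R : ℝ) (p : V d) : Set (V d) :=
  Set.Icc (R • p) (fun i => (R • p) i + 1)

theorem lptCube_volume {d : ℕ} (R : ℝ) (p : V d) : volume (lptCube R p) = 1 := by
  rw [lptCube, Real.volume_Icc_pi]
  have : ∀ i : Fin d, ENNReal.ofReal ((R • p) i + 1 - (R • p) i) = 1 := by
    intro i
    rw [add_sub_cancel_left, ENNReal.ofReal_one]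
  rw [Finset.prod_congr rfl (fun i _ => this i), Finset.prod_const_one]

theorem lptCube_mem {d : ℕ} (R : ℝ) (p : V d) : R • p ∈ lptCube R p :=
  ⟨le_refl _, fun i => by simp only [le_add_iff_nonneg_right]; norm_num⟩

theorem lptCube_inj {d : ℕ} {R : ℝ} (hR : R ≠ 0) : Function.Injective (lptCube (d := d) R) := by
  intro p q hpq
  have h1 : R • p ∈ lptCube R q := hpq ▸ lptCube_mem R p
  have h2 : R • q ∈ lptCube R p := hpq.symm ▸ lptCube_mem R q
  have h3 : R • p = R • q := le_antisymm h2.1 h1.1
  exact smul_right_injective _ hR h3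

/-- points within distance `r` of a convex set form a convex set (concrete form) -/
theorem lpt_convex_near {d : ℕ} (A : Set (V d)) (hA : Convex ℝ A) (R r : ℝ) :
    Convex ℝ {x : V d | ∃ z ∈ A, dist x (R • z) ≤ r} := by
  rintro x ⟨z, hz, hxz⟩ y ⟨w, hw, hyw⟩ a b ha hb hab
  refine ⟨a • z + b • w, hA hz hw ha hb hab, ?_⟩
  rw [dist_eq_norm] at hxz hyw ⊢
  have h1 : a • x + b • y - R • (a • z + b • w) = a • (x - R • z) + b • (y - R • w) := by
    simp only [smul_sub, smul_add, smul_comm R a, smul_comm R b]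
    abel
  rw [h1]
  calc ‖a • (x - R • z) + b • (y - R • w)‖ ≤ ‖a • (x - R • z)‖ + ‖b • (y - R • w)‖ :=
        norm_add_le _ _
    _ = a * ‖x - R • z‖ + b * ‖y - R • w‖ := by
        rw [norm_smul, norm_smul, Real.norm_of_nonneg ha, Real.norm_of_nonneg hb]
    _ ≤ a * r + b * r := by gcongr
    _ = r := by rw [← add_mul, hab, one_mul]

/-- LOWER: volumetric nets give point nets with the same exponent (all dimensions): replace the
points by unit cubes around a large multiple of the point set and use `compact_transversal`. -/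
theorem pointAdmissible_of_admissible {d : ℕ} (hd : 1 ≤ d) {α : ℝ} (h : Admissible d α) :
    PointAdmissible d α := by
  obtain ⟨hα, v, hv, C, hC⟩ := h
  refine ⟨hα, C, fun ε hε hε1 P hP => ?_⟩
  have hX : 0 ≤ C * ε ^ (-α) := by
    obtain ⟨S, hS, _⟩ := hC ε hε hε1 (P.image (lptCube 1)) (hP.image _) (by
      intro K hK
      obtain ⟨p, _, rfl⟩ := Finset.mem_image.mp hK
      exact ⟨convex_Icc _ _, lptCube_volume 1 p⟩)
    exact le_trans (Nat.cast_nonneg _) hS
  obtain ⟨S, hS1, hS2⟩ := compact_transversal (d := d)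
    (P.powerset.filter (fun G => ε * (P.card : ℝ) ≤ (G.card : ℝ)))
    (fun G => convexHull ℝ (G : Set (V d)))
    (fun G _ => G.finite_toSet.isCompact_convexHull ℝ) ⌊C * ε ^ (-α)⌋₊ (by
      intro η hη
      set R : ℝ := 1 / η with hR
      have hR0 : 0 < R := by positivity
      set F : Finset (Set (V d)) := P.image (lptCube R) with hF
      have hFc : F.card = P.card := Finset.card_image_of_injective _ (lptCube_inj hR0.ne')
      obtain ⟨S', hS'c, hS'1, hS'2⟩ := hC ε hε hε1 F (hP.image _) (by
        intro K hK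
        obtain ⟨p, _, rfl⟩ := Finset.mem_image.mp hK
        exact ⟨convex_Icc _ _, lptCube_volume R p⟩)
      have hne : ∀ s ∈ S', ∃ y : V d, y ∈ s := by
        intro s hs
        apply nonempty_of_measure_ne_zero (μ := volume)
        rw [(hS'1 s hs).2]
        simpa using hv
      choose! y hy using hne
      refine ⟨S'.image (fun s => R⁻¹ • y s), ?_, ?_⟩
      · exact Finset.card_image_le.trans (Nat.le_floor hS'c)
      · intro G hG
        rw [Finset.mem_filter, Finset.mem_powerset] at hG
        obtain ⟨s, hs, hs'⟩ := hS'2 (G.image (lptCube R)) (Finset.image_subset_image hG.1) (by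
          rw [hFc, Finset.card_image_of_injective _ (lptCube_inj hR0.ne')]
          exact hG.2)
        refine ⟨R⁻¹ • y s, Finset.mem_image_of_mem _ hs, ?_⟩
        have h1 : convexHull ℝ (⋃ K ∈ G.image (lptCube R), K) ⊆
            {x : V d | ∃ z ∈ convexHull ℝ (G : Set (V d)), dist x (R • z) ≤ 1} := by
          refine convexHull_min ?_ (lpt_convex_near _ (convex_convexHull ℝ _) R 1)
          intro x hx
          simp only [Set.mem_iUnion, exists_prop] at hx
          obtain ⟨K, hK, hxK⟩ := hx
          obtain ⟨p, hp, rfl⟩ := Finset.mem_image.mp hK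
          refine ⟨p, subset_convexHull ℝ _ hp, ?_⟩
          rw [dist_pi_le_iff zero_le_one]
          intro i
          rw [Real.dist_eq, abs_le]
          have h2 := hxK.1 i
          have h3 := hxK.2 i
          simp only at h2 h3
          constructor <;> linarith
        obtain ⟨z, hz, hz'⟩ := h1 (hs' (hy s hs))
        refine ⟨z, hz, ?_⟩
        have h4 : R⁻¹ • y s - z = R⁻¹ • (y s - R • z) := by
          rw [smul_sub, smul_smul, inv_mul_cancel₀ hR0.ne', one_smul]
        rw [dist_eq_norm] at hz' ⊢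
        rw [h4, norm_smul, Real.norm_of_nonneg (by positivity)]
        calc R⁻¹ * ‖y s - R • z‖ ≤ R⁻¹ * 1 := by gcongr
          _ = η := by rw [hR]; simp)
  refine ⟨S, ?_, ?_⟩
  · calc (S.card : ℝ) ≤ (⌊C * ε ^ (-α)⌋₊ : ℝ) := by exact_mod_cast hS1
      _ ≤ C * ε ^ (-α) := Nat.floor_le hX
  · intro G hG hGc
    exact hS2 G (Finset.mem_filter.mpr ⟨Finset.mem_powerset.mpr hG, hGc⟩)

end Pl

end

end MPa20b56
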