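import Pool.Agent.Lib_MP_a20b56_pl.Compact

namespace MPa20b56

open scoped BigOperators Classical

noncomputable section

namespace Pl

/-- the points within distance `r` of a convex set form a convex set -/
theorem multi_convex_near {d : ℕ} (A : Set (V d)) (hA : Convex ℝ A) (r : ℝ) :
    Convex ℝ {x : V d | ∃ z ∈ A, dist x z ≤ r} := by
  rintro x ⟨z, hz, hxz⟩ y ⟨w, hw, hyw⟩ a b ha hb hab
  refine ⟨a • z + b • w, hA hz hw ha hb hab, ?_⟩
  rw [dist_eq_norm] at hxz hyw ⊢
  have h1 : a • x + b • y - (a • z + b • w) = a • (x - z) + b • (y - w) := by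
    simp only [smul_sub]
    abel
  rw [h1]
  calc ‖a • (x - z) + b • (y - w)‖ ≤ ‖a • (x - z)‖ + ‖b • (y - w)‖ :=
        norm_add_le _ _
    _ = a * ‖x - z‖ + b * ‖y - w‖ := by
        rw [norm_smul, norm_smul, Real.norm_of_nonneg ha, Real.norm_of_nonneg hb]
    _ ≤ a * r + b * r := by gcongr
    _ = r := by rw [← add_mul, hab, one_mul]

/-- a numbering of a finite set -/
theorem multi_enum {ι : Type} (J : Finset ι) :
    ∃ e : ι → ℕ, Set.InjOn e (J : Set ι) ∧ ∀ j ∈ J, e j < J.card := by
  refine ⟨fun j => if h : j ∈ J then (J.equivFin ⟨j, h⟩ : ℕ) else 0, ?_, ?_⟩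
  · intro i hi j hj hij
    have hi' : i ∈ J := hi
    have hj' : j ∈ J := hj
    simp only [hi', hj', dif_pos] at hij
    have h1 := J.equivFin.injective (Fin.ext hij)
    exact congrArg Subtype.val h1
  · intro j hj
    simp only [hj, dif_pos]
    exact (J.equivFin ⟨j, hj⟩).2

/-- small perturbations which make a family injective -/
theorem multi_perturb {d : ℕ} (hd : 1 ≤ d) {ι : Type} (c : ι → V d) (J : Finset ι) {η : ℝ}
    (hη : 0 < η) :
    ∃ c' : ι → V d, Set.InjOn c' (J : Set ι) ∧ ∀ j ∈ J, dist (c' j) (c j) ≤ η := by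
  obtain ⟨e, he, heJ⟩ := multi_enum J
  set i0 : Fin d := ⟨0, hd⟩ with hi0
  set B : Finset ℝ := (J ×ˢ J).image
    (fun p => (c p.1 i0 - c p.2 i0) / ((e p.2 : ℝ) - (e p.1 : ℝ))) with hB
  have hδ : 0 < η / ((J.card : ℝ) + 1) := by positivity
  obtain ⟨s, ⟨hs0, hs1⟩, hsB⟩ :=
    ((Set.Ioo_infinite hδ).sdiff B.finite_toSet).nonempty
  refine ⟨fun j => fun i => c j i + s * (e j : ℝ), ?_, ?_⟩
  · intro i hi j hj hij
    by_contra hne
    have h1 : e i ≠ e j := fun h => hne (he hi hj h)
    have h2 : (e j : ℝ) - (e i : ℝ) ≠ 0 := by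
      intro h3
      apply h1
      have : (e i : ℝ) = (e j : ℝ) := by linarith
      exact_mod_cast this
    have h4 : c i i0 + s * (e i : ℝ) = c j i0 + s * (e j : ℝ) := congrFun hij i0
    apply hsB
    rw [hB, Finset.mem_coe, Finset.mem_image]
    refine ⟨(i, j), Finset.mem_product.mpr ⟨hi, hj⟩, ?_⟩
    rw [div_eq_iff h2]
    simp only
    linarith
  · intro j hj
    rw [dist_pi_le_iff hη.le]
    intro i
    rw [Real.dist_eq, add_sub_cancel_left, abs_of_nonneg (by positivity)]
    have h1 : (e j : ℝ) ≤ (J.card : ℝ) + 1 := by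
      have : (e j : ℝ) < (J.card : ℝ) := by exact_mod_cast heJ j hj
      linarith
    have h2 : s * ((J.card : ℝ) + 1) < η := by
      rw [lt_div_iff₀ (by positivity)] at hs1
      exact hs1
    calc s * (e j : ℝ) ≤ s * ((J.card : ℝ) + 1) := by gcongr
      _ ≤ η := h2.le

/-- MULTI: weak nets for point sets give weak nets for indexed families (multisets) with the same
constants: perturb the family to an injective one and use `compact_transversal`. -/
theorem multiNet_of_pointAdmissible {d : ℕ} (hd : 1 ≤ d) {β : ℝ} (h : PointAdmissible d β) :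
    ∃ C : ℝ, 0 ≤ C ∧ MultiNet d β C := by
  obtain ⟨_, C, hC⟩ := h
  refine ⟨max C 0, le_max_right _ _, ?_⟩
  intro ι c J ε hε hε1
  have hX : 0 ≤ max C 0 * ε ^ (-β) := by
    have := le_max_right C 0
    positivity
  rcases J.eq_empty_or_nonempty with hJ | hJ
  · subst hJ
    refine ⟨∅, by simpa using hX, ?_⟩
    intro G hG hne
    rw [Finset.subset_empty] at hG
    exact absurd hne (by rw [hG]; exact Finset.not_nonempty_empty)
  obtain ⟨S, hS1, hS2⟩ := compact_transversal (d := d)
    (J.powerset.filter (fun G => G.Nonempty ∧ ε * (J.card : ℝ) ≤ (G.card : ℝ)))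
    (fun G => convexHull ℝ (c '' (G : Set ι)))
    (fun G _ => (G.finite_toSet.image c).isCompact_convexHull ℝ) ⌊max C 0 * ε ^ (-β)⌋₊ (by
      intro η hη
      obtain ⟨c', hc', hc'd⟩ := multi_perturb hd c J hη
      have hPc : (J.image c').card = J.card := Finset.card_image_of_injOn hc'
      obtain ⟨S, hSc, hS⟩ := hC ε hε hε1 (J.image c') (hJ.image _)
      refine ⟨S, ?_, ?_⟩
      · apply Nat.le_floor
        refine hSc.trans ?_
        have : C ≤ max C 0 := le_max_left _ _
        gcongr
      · intro G hG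
        rw [Finset.mem_filter, Finset.mem_powerset] at hG
        obtain ⟨hGJ, -, hGc⟩ := hG
        obtain ⟨y, hy, hy'⟩ := hS (G.image c') (Finset.image_subset_image hGJ) (by
          rw [hPc, Finset.card_image_of_injOn (hc'.mono (by exact_mod_cast hGJ))]
          exact hGc)
        refine ⟨y, hy, ?_⟩
        have h1 : convexHull ℝ ((G.image c' : Finset (V d)) : Set (V d)) ⊆
            {x : V d | ∃ z ∈ convexHull ℝ (c '' (G : Set ι)), dist x z ≤ η} := by
          refine convexHull_min ?_ (multi_convex_near _ (convex_convexHull ℝ _) η)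
          intro x hx
          rw [Finset.mem_coe, Finset.mem_image] at hx
          obtain ⟨j, hj, rfl⟩ := hx
          exact ⟨c j, subset_convexHull ℝ _ ⟨j, hj, rfl⟩, hc'd j (hGJ hj)⟩
        exact h1 hy')
  refine ⟨S, ?_, ?_⟩
  · calc (S.card : ℝ) ≤ (⌊max C 0 * ε ^ (-β)⌋₊ : ℝ) := by exact_mod_cast hS1
      _ ≤ max C 0 * ε ^ (-β) := Nat.floor_le hX
  · intro G hG hne hGc
    exact hS2 G (Finset.mem_filter.mpr ⟨Finset.mem_powerset.mpr hG, hne, hGc⟩)

/-- the trivial lower bound for point nets -/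
theorem one_le_of_pointAdmissible {d : ℕ} (hd : 1 ≤ d) {β : ℝ} (h : PointAdmissible d β) :
    1 ≤ β := by
  obtain ⟨_, C, hC⟩ := h
  by_contra hlt
  push Not at hlt
  have key : ∀ m : ℕ, 1 ≤ m → (m : ℝ) ≤ C * (m : ℝ) ^ β := by
    intro m hm
    have hm0 : (0 : ℝ) < m := by exact_mod_cast hm
    have hm1 : (1 : ℝ) ≤ m := by exact_mod_cast hm
    have hinj : Function.Injective (fun k : ℕ => (fun _ => (k : ℝ) : V d)) := by
      intro k l hkl
      have h1 := congrFun hkl ⟨0, hd⟩
      simp only at h1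
      exact_mod_cast h1
    set P : Finset (V d) := (Finset.range m).image (fun k : ℕ => (fun _ => (k : ℝ) : V d))
      with hP
    have hPc : P.card = m := by
      rw [hP, Finset.card_image_of_injective _ hinj, Finset.card_range]
    obtain ⟨S, hSc, hS⟩ := hC (1 / m) (by positivity) (by rw [div_le_one hm0]; exact hm1) P
      (by
        rw [hP]
        exact (Finset.nonempty_range_iff.mpr (by omega)).image _)
    have h1 : P ⊆ S := by
      intro p hp
      obtain ⟨s, hs, hs'⟩ := hS {p} (Finset.singleton_subset_iff.mpr hp) (by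
        rw [hPc, Finset.card_singleton, one_div_mul_cancel hm0.ne']
        norm_num)
      rw [Finset.coe_singleton, convexHull_singleton, Set.mem_singleton_iff] at hs'
      exact hs' ▸ hs
    have h2 : m ≤ S.card := hPc ▸ Finset.card_le_card h1
    calc (m : ℝ) ≤ S.card := by exact_mod_cast h2
      _ ≤ C * (1 / m : ℝ) ^ (-β) := hSc
      _ = C * (m : ℝ) ^ β := by
        rw [one_div, Real.inv_rpow hm0.le, Real.rpow_neg hm0.le, inv_inv]
  have hlim : Filter.Tendsto (fun m : ℕ => (m : ℝ) ^ (1 - β)) Filter.atTop Filter.atTop :=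
    (tendsto_rpow_atTop (by linarith)).comp tendsto_natCast_atTop_atTop
  obtain ⟨m, hm1, hm2⟩ := ((Filter.eventually_ge_atTop 1).and
    (hlim.eventually_gt_atTop C)).exists
  have hm0 : (0 : ℝ) < m := by exact_mod_cast hm1
  have h3 := key m hm1
  rw [Real.rpow_sub hm0, Real.rpow_one, lt_div_iff₀ (by positivity)] at hm2
  linarith

end Pl

end

end MPa20b56
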