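import Pool.Agent.Lib_MP_a20b56_pl.NodeT

namespace MPa20b56

open scoped BigOperators Classical

noncomputable section

namespace Pl

/-- REC0: choice of the parameters -/
theorem params (β' : ℝ) (h : 1 < β') :
    ∃ (b : ℕ) (K : ℝ), 100 ≤ b ∧ 2 ≤ K ∧
      (1 - 1 / K) ^ (-β') * (3 / 4 : ℝ) ^ (β' - 1) * (((b : ℝ) + 7) / b) < 1 := by
  have hθ : (3 / 4 : ℝ) ^ (β' - 1) < 1 :=
    Real.rpow_lt_one (by norm_num) (by norm_num) (by linarith)
  have h1 : Filter.Tendsto (fun n : ℕ => (1 - 1 / (n : ℝ)) ^ (-β')) Filter.atTop (nhds 1) := by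
    have h2 : Filter.Tendsto (fun n : ℕ => 1 - 1 / (n : ℝ)) Filter.atTop (nhds (1 - 0)) :=
      tendsto_const_nhds.sub tendsto_one_div_atTop_nhds_zero_nat
    rw [sub_zero] at h2
    have h3 := h2.rpow_const (p := -β') (Or.inl one_ne_zero)
    rwa [Real.one_rpow] at h3
  have h4 : Filter.Tendsto (fun n : ℕ => ((n : ℝ) + 7) / n) Filter.atTop (nhds 1) := by
    have h5 : Filter.Tendsto (fun n : ℕ => 1 + 7 * (1 / (n : ℝ))) Filter.atTop
        (nhds (1 + 7 * 0)) :=
      tendsto_const_nhds.add (tendsto_one_div_atTop_nhds_zero_nat.const_mul 7)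
    rw [mul_zero, add_zero] at h5
    refine h5.congr' ?_
    filter_upwards [Filter.eventually_gt_atTop 0] with n hn
    have : (n : ℝ) ≠ 0 := by exact_mod_cast hn.ne'
    field_simp
  have h6 : Filter.Tendsto (fun n : ℕ => (1 - 1 / (n : ℝ)) ^ (-β') * (3 / 4 : ℝ) ^ (β' - 1) *
      (((n : ℝ) + 7) / n)) Filter.atTop (nhds (1 * (3 / 4 : ℝ) ^ (β' - 1) * 1)) :=
    (h1.mul_const _).mul h4
  rw [one_mul, mul_one] at h6
  obtain ⟨n, hn1, hn2⟩ := ((h6.eventually_lt_const hθ).and (Filter.eventually_ge_atTop 100)).exists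
  exact ⟨n, n, hn2, by exact_mod_cast (by omega : 2 ≤ n), hn1⟩

/-- REC: the recursion -/
theorem planar_net (β C : ℝ) (hC : 0 ≤ C) (hnet : MultiNet 2 β C) (β' : ℝ) (h1 : β ≤ β')
    (h2 : 1 < β') (δ : ℝ) (hδ : 0 < δ) :
    ∃ κ : ℝ, 0 < κ ∧ ∃ A : ℝ, 0 ≤ A ∧ ∀ (ι : Type) (c : ι → V 2) (u : ι → Fin 2 → V 2)
      (J : Finset ι) (ε : ℝ), (∀ j, δ ≤ |dd (u j 0) (u j 1)|) → 0 < ε → ε ≤ 1 →
      ∃ S : Finset (V 2 × (Fin 2 → V 2)), (S.card : ℝ) ≤ A * ε ^ (-β') ∧
        (∀ p ∈ S, dd (p.2 0) (p.2 1) = 1) ∧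
        ∀ G ⊆ J, G.Nonempty → ε * (J.card : ℝ) ≤ (G.card : ℝ) →
          ∃ p ∈ S, Bx κ p.1 p.2 ⊆ Hull c u G := by
  obtain ⟨b, K, hb, hK, hθ⟩ := params β' h2
  obtain ⟨κ, hκ, hnode⟩ := node δ hδ b hb
  set θ : ℝ := (1 - 1 / K) ^ (-β') * (3 / 4 : ℝ) ^ (β' - 1) * (((b : ℝ) + 7) / b) with hθdef
  have hK0 : 0 < K := by linarith
  have hK1 : 0 < 1 - 1 / K := by
    have : 1 / K ≤ 1 / 2 := one_div_le_one_div_of_le (by norm_num) hK
    linarith
  have hb0 : (0 : ℝ) < b := by
    have : 0 < b := by omega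
    exact_mod_cast this
  set K1 : ℝ := K * (8 * b + 1) with hK1def
  have hK1pos : 1 ≤ K1 := by
    rw [hK1def]
    nlinarith
  set A0 : ℝ := (8 * b + 1) * 3 * (C * (1 / K1) ^ (-β)) with hA0
  have hA0nn : 0 ≤ A0 := by rw [hA0]; positivity
  set A : ℝ := A0 / (1 - θ) with hA
  have h1θ : 0 < 1 - θ := by linarith
  have hAnn : 0 ≤ A := div_nonneg hA0nn h1θ.le
  have hAeq : A0 + θ * A = A := by
    rw [hA]; field_simp; ring
  refine ⟨κ, hκ, A, hAnn, ?_⟩
  -- strong induction on the cardinality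
  intro ι c u J
  induction J using Finset.strongInduction with
  | H J ih =>
  intro ε hu hε hε1
  rcases J.eq_empty_or_nonempty with rfl | hJ
  · refine ⟨∅, ?_, by simp, ?_⟩
    · simp only [Finset.card_empty, Nat.cast_zero]
      positivity
    · intro G hG hGne
      rw [Finset.subset_empty] at hG
      exact absurd hG hGne.ne_empty
  have hJc : (0 : ℝ) < J.card := by exact_mod_cast hJ.card_pos
  obtain ⟨w, cls, vec, blk, hw, hcls, hblk, hblk34, hblksum, hG⟩ :=
    hnode K (by linarith) ι c u J hJ hu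
  have hε' : 0 < ε / K1 := by positivity
  have hε'1 : ε / K1 ≤ 1 := by
    rw [div_le_one (by linarith)]; linarith
  -- the point nets of the classes
  choose T hTcard hT using fun t : ℕ => hnet ι c (cls t) (ε / K1) hε' hε'1
  set S0 : Finset (V 2 × (Fin 2 → V 2)) := (Finset.range (8 * b + 1)).biUnion fun t =>
    ((T t).image fun x => (x + 0, w)) ∪ (((T t).image fun x => (x + vec t, w)) ∪
      ((T t).image fun x => (x + - vec t, w))) with hS0
  have hS0card : (S0.card : ℝ) ≤ A0 * ε ^ (-β') := by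
    have e1 : ∀ t, ((((T t).image fun x => (x + 0, w)) ∪ (((T t).image fun x => (x + vec t, w)) ∪
      ((T t).image fun x => (x + - vec t, w))) : Finset (V 2 × (Fin 2 → V 2))).card : ℝ) ≤
        3 * (C * (ε / K1) ^ (-β)) := by
      intro t
      have f1 := Finset.card_union_le ((T t).image fun x => (x + 0, w))
        (((T t).image fun x => (x + vec t, w)) ∪ ((T t).image fun x => (x + - vec t, w)))
      have f2 := Finset.card_union_le ((T t).image fun x => (x + vec t, w))
        ((T t).image fun x => (x + - vec t, w))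
      have f3 := Finset.card_image_le (s := T t) (f := fun x => (x + 0, w))
      have f4 := Finset.card_image_le (s := T t) (f := fun x => (x + vec t, w))
      have f5 := Finset.card_image_le (s := T t) (f := fun x => (x + - vec t, w))
      have f6 : (((T t).image fun x => (x + 0, w)) ∪ (((T t).image fun x => (x + vec t, w)) ∪
        ((T t).image fun x => (x + - vec t, w)))).card ≤ 3 * (T t).card := by omega
      have f7 : ((((T t).image fun x => (x + 0, w)) ∪ (((T t).image fun x => (x + vec t, w)) ∪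
        ((T t).image fun x => (x + - vec t, w))) : Finset (V 2 × (Fin 2 → V 2))).card : ℝ) ≤
          3 * ((T t).card : ℝ) := by exact_mod_cast f6
      have := hTcard t
      linarith
    have e2 : (S0.card : ℝ) ≤ (8 * b + 1) * (3 * (C * (ε / K1) ^ (-β))) := by
      have g1 : (S0.card : ℝ) ≤ ∑ t ∈ Finset.range (8 * b + 1),
          ((((T t).image fun x => (x + 0, w)) ∪ (((T t).image fun x => (x + vec t, w)) ∪
          ((T t).image fun x => (x + - vec t, w))) : Finset (V 2 × (Fin 2 → V 2))).card : ℝ) := by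
        rw [hS0]
        exact_mod_cast Finset.card_biUnion_le
      refine g1.trans ((Finset.sum_le_sum fun t _ => e1 t).trans (le_of_eq ?_))
      rw [Finset.sum_const, Finset.card_range, nsmul_eq_mul]
      push_cast
      ring
    have e3 : (ε / K1) ^ (-β) ≤ (1 / K1) ^ (-β) * ε ^ (-β') := by
      rw [div_eq_mul_one_div ε K1, mul_comm ε, Real.mul_rpow (by positivity) hε.le]
      apply mul_le_mul_of_nonneg_left _ (by positivity)
      exact Real.rpow_le_rpow_of_exponent_ge hε hε1 (by linarith)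
    refine e2.trans ?_
    rw [hA0]
    calc (8 * (b : ℝ) + 1) * (3 * (C * (ε / K1) ^ (-β))) ≤
        (8 * (b : ℝ) + 1) * (3 * (C * ((1 / K1) ^ (-β) * ε ^ (-β')))) := by gcongr
      _ = _ := by ring
  -- the nets of the blocks
  have hblock : ∀ k : ℕ, ∃ S : Finset (V 2 × (Fin 2 → V 2)),
      (k < 8 → (S.card : ℝ) ≤ A * ε ^ (-β') * ((1 - 1 / K) ^ (-β') * (3 / 4 : ℝ) ^ (β' - 1)) *
        ((blk k).card / J.card)) ∧
      (∀ p ∈ S, dd (p.2 0) (p.2 1) = 1) ∧
      (k < 8 → ∀ G ⊆ J, G.Nonempty → ε * (J.card : ℝ) ≤ (G.card : ℝ) →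
        (1 - 1 / K) * (G.card : ℝ) ≤ ((G ∩ blk k).card : ℝ) →
        ∃ p ∈ S, Bx κ p.1 p.2 ⊆ Hull c u G) := by
    intro k
    by_cases hk : k < 8
    swap
    · exact ⟨∅, fun h => absurd h hk, by simp, fun h => absurd h hk⟩
    by_cases hex : (blk k).Nonempty ∧ ε * (1 - 1 / K) * J.card ≤ (blk k).card
    swap
    · refine ⟨∅, fun _ => ?_, by simp, ?_⟩
      · simp only [Finset.card_empty, Nat.cast_zero]
        positivity
      · intro _ G hG hGne hGc hGb
        exfalso
        apply hex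
        have hGc0 : (0 : ℝ) < G.card := by exact_mod_cast hGne.card_pos
        have h3 : (0 : ℝ) < ((G ∩ blk k).card : ℝ) := lt_of_lt_of_le (by positivity) hGb
        have h4 : ((G ∩ blk k).card : ℝ) ≤ ((blk k).card : ℝ) := by
          exact_mod_cast Finset.card_le_card Finset.inter_subset_right
        constructor
        · rw [← Finset.card_pos]
          exact_mod_cast lt_of_lt_of_le h3 h4
        · calc ε * (1 - 1 / K) * J.card = (1 - 1 / K) * (ε * J.card) := by ring
            _ ≤ (1 - 1 / K) * G.card := mul_le_mul_of_nonneg_left hGc hK1.le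
            _ ≤ _ := hGb.trans h4
    · obtain ⟨hne, hle⟩ := hex
      have hbc : (0 : ℝ) < (blk k).card := by exact_mod_cast hne.card_pos
      have h34 : 4 * ((blk k).card : ℝ) ≤ 3 * J.card := by exact_mod_cast hblk34 k hk
      have hlt : (blk k) ⊂ J := by
        refine (Finset.ssubset_iff_subset_ne).2 ⟨hblk k, ?_⟩
        intro he
        rw [he] at h34
        linarith
      set εk : ℝ := ε * (1 - 1 / K) * J.card / (blk k).card with hεk
      have hεk0 : 0 < εk := by rw [hεk]; positivity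
      have hεk1 : εk ≤ 1 := by rw [hεk, div_le_one hbc]; exact hle
      obtain ⟨S, hS1, hS2, hS3⟩ := ih (blk k) hlt εk hu hεk0 hεk1
      refine ⟨S, fun _ => ?_, hS2, ?_⟩
      · refine hS1.trans ?_
        have hp : (0 : ℝ) < (blk k).card / J.card := by positivity
        have hp34 : ((blk k).card : ℝ) / J.card ≤ 3 / 4 := by
          rw [div_le_iff₀ hJc]; linarith
        have e1 : εk = ε * (1 - 1 / K) * ((blk k).card / J.card : ℝ)⁻¹ := by
          rw [hεk, inv_div]; ring
        have e2 : εk ^ (-β') = ε ^ (-β') * (1 - 1 / K) ^ (-β') *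
            ((blk k).card / J.card : ℝ) ^ β' := by
          rw [e1, Real.mul_rpow (by positivity) (by positivity),
            Real.mul_rpow hε.le hK1.le, Real.inv_rpow hp.le, Real.rpow_neg hp.le, inv_inv]
        have e3 : ((blk k).card / J.card : ℝ) ^ β' ≤
            (3 / 4 : ℝ) ^ (β' - 1) * ((blk k).card / J.card) := by
          have : ((blk k).card / J.card : ℝ) ^ β' =
              ((blk k).card / J.card : ℝ) ^ (β' - 1) * ((blk k).card / J.card) := by
            nth_rewrite 3 [← Real.rpow_one ((blk k).card / J.card : ℝ)]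
            rw [← Real.rpow_add hp]
            congr 1
            ring
          rw [this]
          apply mul_le_mul_of_nonneg_right _ hp.le
          exact Real.rpow_le_rpow hp.le hp34 (by linarith)
        rw [e2]
        calc A * (ε ^ (-β') * (1 - 1 / K) ^ (-β') * ((blk k).card / J.card : ℝ) ^ β') ≤
            A * (ε ^ (-β') * (1 - 1 / K) ^ (-β') *
              ((3 / 4 : ℝ) ^ (β' - 1) * ((blk k).card / J.card))) := by gcongr
          _ = _ := by ring
      · intro _ G hG hGne hGc hGb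
        have hGc0 : (0 : ℝ) < G.card := by exact_mod_cast hGne.card_pos
        have h3 : (0 : ℝ) < ((G ∩ blk k).card : ℝ) := lt_of_lt_of_le (by positivity) hGb
        obtain ⟨p, hp, hps⟩ := hS3 (G ∩ blk k) Finset.inter_subset_right
          (by rw [← Finset.card_pos]; exact_mod_cast h3)
          (by
            rw [hεk, div_mul_cancel₀ _ hbc.ne']
            calc ε * (1 - 1 / K) * J.card = (1 - 1 / K) * (ε * J.card) := by ring
              _ ≤ (1 - 1 / K) * G.card := mul_le_mul_of_nonneg_left hGc hK1.le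
              _ ≤ _ := hGb)
        refine ⟨p, hp, hps.trans ?_⟩
        apply convexHull_mono
        rintro y ⟨j, hj, i, hi⟩
        exact ⟨j, (Finset.mem_inter.1 hj).1, i, hi⟩
  choose Sb hSb1 hSb2 hSb3 using hblock
  refine ⟨S0 ∪ (Finset.range 8).biUnion Sb, ?_, ?_, ?_⟩
  · have e1 : ((S0 ∪ (Finset.range 8).biUnion Sb).card : ℝ) ≤ S0.card +
        ∑ k ∈ Finset.range 8, ((Sb k).card : ℝ) := by
      have f1 := Finset.card_union_le S0 ((Finset.range 8).biUnion Sb)
      have f2 := Finset.card_biUnion_le (s := Finset.range 8) (t := Sb)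
      have f3 : (S0 ∪ (Finset.range 8).biUnion Sb).card ≤ S0.card +
        ∑ k ∈ Finset.range 8, (Sb k).card := by omega
      exact_mod_cast f3
    have e2 : ∑ k ∈ Finset.range 8, ((Sb k).card : ℝ) ≤ θ * A * ε ^ (-β') := by
      have f1 : ∑ k ∈ Finset.range 8, ((Sb k).card : ℝ) ≤ ∑ k ∈ Finset.range 8,
          A * ε ^ (-β') * ((1 - 1 / K) ^ (-β') * (3 / 4 : ℝ) ^ (β' - 1)) *
            ((blk k).card / J.card) :=
        Finset.sum_le_sum fun k hk => hSb1 k (Finset.mem_range.1 hk)
      refine f1.trans ?_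
      rw [← Finset.mul_sum, ← Finset.sum_div]
      have f2 : (b : ℝ) * ∑ k ∈ Finset.range 8, ((blk k).card : ℝ) ≤ (b + 7) * J.card := by
        exact_mod_cast hblksum
      have f3 : (∑ k ∈ Finset.range 8, ((blk k).card : ℝ)) / J.card ≤ ((b : ℝ) + 7) / b := by
        rw [div_le_div_iff₀ hJc hb0]
        linarith
      calc A * ε ^ (-β') * ((1 - 1 / K) ^ (-β') * (3 / 4 : ℝ) ^ (β' - 1)) *
          ((∑ k ∈ Finset.range 8, ((blk k).card : ℝ)) / J.card) ≤
          A * ε ^ (-β') * ((1 - 1 / K) ^ (-β') * (3 / 4 : ℝ) ^ (β' - 1)) *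
            (((b : ℝ) + 7) / b) := by gcongr
        _ = _ := by rw [hθdef]; ring
    calc ((S0 ∪ (Finset.range 8).biUnion Sb).card : ℝ) ≤ A0 * ε ^ (-β') + θ * A * ε ^ (-β') := by
          linarith
      _ = (A0 + θ * A) * ε ^ (-β') := by ring
      _ = A * ε ^ (-β') := by rw [hAeq]
  · intro p hp
    rw [Finset.mem_union] at hp
    rcases hp with hp | hp
    · rw [hS0, Finset.mem_biUnion] at hp
      obtain ⟨t, _, hp⟩ := hp
      simp only [Finset.mem_union, Finset.mem_image] at hp
      rcases hp with ⟨x, _, rfl⟩ | ⟨x, _, rfl⟩ | ⟨x, _, rfl⟩ <;> exact hw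
    · rw [Finset.mem_biUnion] at hp
      obtain ⟨k, _, hp⟩ := hp
      exact hSb2 k p hp
  · intro G hGJ hGne hGc
    have hGc0 : (0 : ℝ) < G.card := by exact_mod_cast hGne.card_pos
    rcases hG G hGJ hGne with ⟨k, hk, hGb⟩ | hx
    · obtain ⟨p, hp, hps⟩ := hSb3 k hk G hGJ hGne hGc hGb
      exact ⟨p, Finset.mem_union_right _ (Finset.mem_biUnion.2 ⟨k, Finset.mem_range.2 hk, hp⟩), hps⟩
    · have hpt : ∀ t : ℕ, ∃ x : V 2, (G.card : ℝ) ≤ K * (8 * b + 1) * ((G ∩ cls t).card : ℝ) →
          x ∈ T t ∧ x ∈ convexHull ℝ (c '' ((G ∩ cls t : Finset ι) : Set ι)) := by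
        intro t
        by_cases hc : (G.card : ℝ) ≤ K * (8 * b + 1) * ((G ∩ cls t).card : ℝ)
        swap
        · exact ⟨0, fun h => absurd h hc⟩
        have hpos : (0 : ℝ) < ((G ∩ cls t).card : ℝ) := by
          by_contra hcon
          push Not at hcon
          have : ((G ∩ cls t).card : ℝ) = 0 := le_antisymm hcon (Nat.cast_nonneg _)
          rw [this, mul_zero] at hc
          linarith
        obtain ⟨x, hx1, hx2⟩ := hT t (G ∩ cls t) Finset.inter_subset_right
          (by rw [← Finset.card_pos]; exact_mod_cast hpos)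
          (by
            have h3 : ((cls t).card : ℝ) ≤ J.card := by
              exact_mod_cast Finset.card_le_card (hcls t)
            rw [div_mul_eq_mul_div, div_le_iff₀ (by linarith)]
            calc ε * ((cls t).card : ℝ) ≤ ε * J.card := mul_le_mul_of_nonneg_left h3 hε.le
              _ ≤ G.card := hGc
              _ ≤ K * (8 * b + 1) * ((G ∩ cls t).card : ℝ) := hc
              _ = _ := by rw [hK1def]; ring)
        exact ⟨x, fun _ => ⟨hx1, hx2⟩⟩
      choose x hxx using hpt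
      obtain ⟨t, ht, htc, s, hs, hsub⟩ := hx x (fun t _ h => (hxx t h).2)
      refine ⟨(x t + s, w), Finset.mem_union_left _ ?_, hsub⟩
      rw [hS0, Finset.mem_biUnion]
      refine ⟨t, Finset.mem_range.2 ht, ?_⟩
      simp only [Finset.mem_union, Finset.mem_image]
      have hxt := (hxx t htc).1
      rcases hs with rfl | rfl | rfl
      · exact Or.inl ⟨x t, hxt, rfl⟩
      · exact Or.inr (Or.inl ⟨x t, hxt, rfl⟩)
      · exact Or.inr (Or.inr ⟨x t, hxt, rfl⟩)

end Pl

end

end MPa20b56
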