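import Pool.Agent.Lib_MP_a20b56_co.Final
import Pool.Agent.Lib_MP_a20b56_pl.Rec2
import Pool.Agent.Lib_MP_a20b56_pl.Multi
import Pool.Agent.Lib_MP_a20b56_pl.LowerPt

namespace MPa20b56

open scoped BigOperators Classical
open MeasureTheory

noncomputable section

namespace Pl

/-- the determinant of two rows -/
theorem det_of_two (w : Fin 2 → V 2) : Matrix.det (Matrix.of w) = dd (w 0) (w 1) := by
  rw [Matrix.det_fin_two]
  simp only [Matrix.of_apply, dd]

/-- FINAL1: the planar upper bound -/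
theorem admissible_two {β α : ℝ} (h : PointAdmissible 2 β) (hα : β < α) : Admissible 2 α := by
  have hβ1 : 1 ≤ β := one_le_of_pointAdmissible (by norm_num) h
  obtain ⟨C, hC, hnet⟩ := multiNet_of_pointAdmissible (by norm_num) h
  set δ : ℝ := (1 / (8 * ((2 : ℕ) : ℝ))) ^ 2 with hδ
  have hδ0 : 0 < δ := by rw [hδ]; positivity
  have hδ1 : δ ≤ 1 := by rw [hδ]; norm_num
  obtain ⟨κ, hκ, A, hA, hmain⟩ :=
    planar_net β C hC hnet α hα.le (lt_of_le_of_lt hβ1 hα) δ hδ0
  refine ⟨by linarith, (2 * κ) ^ 2, by positivity, A, ?_⟩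
  intro ε hε hε1 F hF hK
  -- the data of the members
  have hdata : ∀ K : Set (Fin 2 → ℝ), ∃ p : V 2 × (Fin 2 → V 2),
      δ ≤ |dd (p.2 0) (p.2 1)| ∧
      (K ∈ F → ∀ i, p.1 + p.2 i ∈ K ∧ p.1 - p.2 i ∈ K) := by
    intro K
    by_cases h : K ∈ F
    · obtain ⟨c, u, h1, h2⟩ := inscribed (by norm_num) K (hK K h).1 (hK K h).2
      rw [det_of_two] at h2
      exact ⟨(c, u), h2, fun _ => h1⟩
    · refine ⟨(0, std), ?_, fun h' => absurd h' h⟩
      have : dd (std 0) (std 1) = 1 := by simp [dd, std]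
      show δ ≤ |dd (std 0) (std 1)|
      rw [this, abs_one]
      exact hδ1
  choose dat hdet hmem using hdata
  obtain ⟨S, hScard, hSdet, hS⟩ := hmain (Set (Fin 2 → ℝ)) (fun K => (dat K).1)
    (fun K => (dat K).2) F ε hdet hε hε1
  refine ⟨S.image (fun p => Bx κ p.1 p.2), ?_, ?_, ?_⟩
  · have h1 : ((S.image (fun p => Bx κ p.1 p.2)).card : ℝ) ≤ S.card := by
      exact_mod_cast Finset.card_image_le
    exact h1.trans hScard
  · intro s hs
    obtain ⟨p, hp, rfl⟩ := Finset.mem_image.1 hs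
    obtain ⟨h1, h2⟩ := box_volume p.1 p.2 κ hκ.le
    refine ⟨h1, ?_⟩
    show volume (Bx κ p.1 p.2) = _
    rw [Bx, h2, det_of_two, hSdet p hp, abs_one, mul_one]
  · intro G hG hGcard
    have hGne : G.Nonempty := by
      rw [← Finset.card_pos]
      have h1 : (0 : ℝ) < F.card := by exact_mod_cast hF.card_pos
      have h2 : (0 : ℝ) < G.card := lt_of_lt_of_le (by positivity) hGcard
      exact_mod_cast h2
    obtain ⟨p, hp, hps⟩ := hS G hG hGne hGcard
    refine ⟨Bx κ p.1 p.2, Finset.mem_image.2 ⟨p, hp, rfl⟩, hps.trans ?_⟩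
    apply convexHull_mono
    rintro y ⟨K, hKG, i, hi⟩
    have h1 := hmem K (hG hKG) i
    refine Set.mem_iUnion₂.2 ⟨K, hKG, ?_⟩
    rcases hi with rfl | rfl
    · exact h1.1
    · exact h1.2

theorem beta_le_alpha {d : ℕ} (hd : 1 ≤ d) : beta d ≤ alpha d := by
  apply le_sInf
  rintro a ⟨α, hα, rfl⟩
  exact sInf_le ⟨α, pointAdmissible_of_admissible hd hα, rfl⟩

theorem one_le_beta {d : ℕ} (hd : 1 ≤ d) : 1 ≤ beta d := by
  apply le_sInf
  rintro a ⟨β, hβ, rfl⟩
  exact_mod_cast one_le_of_pointAdmissible hd hβ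

theorem alpha_two : alpha 2 = beta 2 := by
  apply le_antisymm _ (beta_le_alpha (by norm_num))
  apply le_sInf
  rintro a ⟨β, hβ, rfl⟩
  apply le_of_forall_gt
  intro b hb
  obtain ⟨q, hq1, hq2⟩ := EReal.lt_iff_exists_real_btwn.1 hb
  refine lt_of_le_of_lt (sInf_le ⟨q, admissible_two hβ ?_, rfl⟩) hq2
  exact_mod_cast hq1

theorem alpha_one_eq : alpha 1 = beta 1 := by
  apply le_antisymm _ (beta_le_alpha (le_refl 1))
  rw [alpha_one]
  exact one_le_beta (le_refl 1)

end Pl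

end

end MPa20b56
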