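import Pool.Agent.Lib_MP_a20b56_pl.Sep
import Pool.Agent.Lib_MP_a20b56_pl.Cone
import Pool.Agent.Lib_MP_a20b56_pl.Angle
import Pool.Agent.Lib_MP_a20b56_pl.Blocks

namespace MPa20b56

open scoped BigOperators Classical

noncomputable section

namespace Pl

/-- the support function of the hull -/
def nodeH {ι : Type} (c : ι → V 2) (u : ι → Fin 2 → V 2) (G : Finset ι) (hG : G.Nonempty)
    (φ : V 2) : ℝ :=
  (G ×ˢ (Finset.univ : Finset (Fin 2))).sup' (hG.product Finset.univ_nonempty)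
    (fun p => dt φ (c p.1) + |dt φ (u p.1 p.2)|)

theorem le_nodeH {ι : Type} (c : ι → V 2) (u : ι → Fin 2 → V 2) (G : Finset ι)
    (hG : G.Nonempty) (φ : V 2) (j : ι) (hj : j ∈ G) (i : Fin 2) :
    dt φ (c j) + |dt φ (u j i)| ≤ nodeH c u G hG φ :=
  Finset.le_sup' (f := fun p : ι × Fin 2 => dt φ (c p.1) + |dt φ (u p.1 p.2)|)
    (Finset.mem_product.2 ⟨hj, Finset.mem_univ i⟩ : (j, i) ∈ G ×ˢ (Finset.univ : Finset (Fin 2)))

theorem nodeH_exists {ι : Type} (c : ι → V 2) (u : ι → Fin 2 → V 2) (G : Finset ι)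
    (hG : G.Nonempty) (φ : V 2) (v : ℝ) (h : v ≤ nodeH c u G hG φ) :
    ∃ j ∈ G, ∃ i : Fin 2, v ≤ dt φ (c j) + |dt φ (u j i)| := by
  obtain ⟨p, hp, hp'⟩ := Finset.exists_mem_eq_sup' (hG.product Finset.univ_nonempty)
    (fun p : ι × Fin 2 => dt φ (c p.1) + |dt φ (u p.1 p.2)|)
  refine ⟨p.1, (Finset.mem_product.1 hp).1, p.2, ?_⟩
  rw [← hp']
  exact h

theorem node_hull_mono {ι : Type} (c : ι → V 2) (u : ι → Fin 2 → V 2) {G G' : Finset ι}
    (h : G' ⊆ G) : Hull c u G' ⊆ Hull c u G := by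
  apply convexHull_mono
  rintro y ⟨j, hj, i, hi⟩
  exact ⟨j, h hj, i, hi⟩

/-- the case of two far heavy cells -/
theorem node_far {ι : Type} (c : ι → V 2) (u : ι → Fin 2 → V 2) (δ r σ : ℝ) (hδ : 0 < δ)
    (hr : 0 < r) (hu : ∀ j, δ ≤ |dd (u j 0) (u j 1)|) (G G1 G2 : Finset ι) (hG : G.Nonempty)
    (hG1 : G1 ⊆ G) (hG2 : G2 ⊆ G) (ν : ι → V 2) (e e' x x' : V 2) (he : sq e = 1)
    (he' : sq e' = 1) (hσ : 0 ≤ σ) (h14 : 2 * (r ^ 2 / δ + σ) ≤ 1 / 4)
    (h4 : 2 * (2 * (r ^ 2 / δ + σ)) < |dd e e'|)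
    (hν1 : ∀ j ∈ G1, sq (ν j) = 1 ∧ qf (u j) (ν j) ≤ r ^ 2 ∧ |dd (ν j) e| ≤ σ)
    (hν2 : ∀ j ∈ G2, sq (ν j) = 1 ∧ qf (u j) (ν j) ≤ r ^ 2 ∧ |dd (ν j) e'| ≤ σ)
    (hx : x ∈ convexHull ℝ (c '' (G1 : Set ι))) (hx' : x' ∈ convexHull ℝ (c '' (G2 : Set ι))) :
    ∃ z : V 2, (z = x ∨ z = x + (r / 4) • e ∨ z = x - (r / 4) • e ∨
      z = x' ∨ z = x' + (r / 4) • e' ∨ z = x' - (r / 4) • e') ∧
      Bx (r / 16) z std ⊆ Hull c u G := by
  have hone : ∀ (G1 : Finset ι) (e x : V 2), G1 ⊆ G → sq e = 1 →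
      (∀ j ∈ G1, sq (ν j) = 1 ∧ qf (u j) (ν j) ≤ r ^ 2 ∧ |dd (ν j) e| ≤ σ) →
      x ∈ convexHull ℝ (c '' (G1 : Set ι)) →
      (∀ φ, dt φ x ≤ nodeH c u G hG φ) ∧
      (∀ φ, 2 * (r ^ 2 / δ + σ) * |dt φ e| < |dd φ e| →
        dt φ x + (r / 2) * N1 φ ≤ nodeH c u G hG φ) := by
    intro G1 e x hG1 he hν1 hx
    constructor
    · intro φ
      obtain ⟨j, hj, hj'⟩ := exists_ge_of_mem_hull c G1 x hx φ
      have h1 := le_nodeH c u G hG φ j (hG1 hj) 0
      have h2 := abs_nonneg (dt φ (u j 0))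
      linarith
    · intro φ hφ
      obtain ⟨j, hj, hj'⟩ := exists_ge_of_mem_hull c G1 x hx φ
      obtain ⟨h1, h2, h3⟩ := hν1 j hj
      have h5 := wide_outside (u j) δ r σ hδ hr.le (hu j) (ν j) e h1 he h3 h2 (by linarith) φ hφ
      obtain ⟨i, hi⟩ := wide (u j) r hr.le φ h5
      have h6 := le_nodeH c u G hG φ j (hG1 hj) i
      linarith
  obtain ⟨a1, a2⟩ := hone G1 e x hG1 he hν1 hx
  obtain ⟨b1, b2⟩ := hone G2 e' x' hG2 he' hν2 hx'
  obtain ⟨z, hz, hz'⟩ := cone_kill (r / 2) (r / 16) (2 * (r ^ 2 / δ + σ)) (by linarith)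
    (by linarith) (by linarith) (by positivity) h14 e e' x x' he he' (nodeH c u G hG)
    a1 b1 a2 b2 h4
  have e4 : r / 2 / 2 = r / 4 := by ring
  rw [e4] at hz
  refine ⟨z, hz, ?_⟩
  apply box_sub_hull c u G hG (r / 16) z
  intro φ
  exact nodeH_exists c u G hG φ _ (hz' φ)

/-- NODEN: the node of the recursion in normalised coordinates. -/
theorem node_norm (δ : ℝ) (hδ : 0 < δ) (b : ℕ) (hb : 100 ≤ b) :
    ∃ κ : ℝ, 0 < κ ∧ ∀ (K : ℝ), 1 ≤ K → ∀ (ι : Type) (c : ι → V 2) (u : ι → Fin 2 → V 2)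
      (J : Finset ι), (∀ j, δ ≤ |dd (u j 0) (u j 1)|) → Centered u J →
      ∃ (cls : ℕ → Finset ι) (vec : ℕ → V 2) (blk : ℕ → Finset ι),
        (∀ t, cls t ⊆ J) ∧ (∀ k, blk k ⊆ J) ∧
        (∀ k < 8, 4 * (blk k).card ≤ 3 * J.card) ∧
        b * ∑ k ∈ Finset.range 8, (blk k).card ≤ (b + 7) * J.card ∧
        ∀ G ⊆ J, G.Nonempty →
          (∃ k < 8, (1 - 1 / K) * (G.card : ℝ) ≤ ((G ∩ blk k).card : ℝ)) ∨
          (∀ x : ℕ → V 2,
            (∀ t < 8 * b + 1, (G.card : ℝ) ≤ K * (8 * b + 1) * ((G ∩ cls t).card : ℝ) →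
              x t ∈ convexHull ℝ (c '' ((G ∩ cls t : Finset ι) : Set ι))) →
            ∃ t < 8 * b + 1, (G.card : ℝ) ≤ K * (8 * b + 1) * ((G ∩ cls t).card : ℝ) ∧
              ∃ s : V 2, (s = 0 ∨ s = vec t ∨ s = - vec t) ∧
                Bx κ (x t + s) std ⊆ Hull c u G) := by
  have hm0 : 0 < 8 * b := by omega
  have hmR : (800 : ℝ) ≤ ((8 * b : ℕ) : ℝ) := by exact_mod_cast (by omega : 800 ≤ 8 * b)
  set m : ℝ := ((8 * b : ℕ) : ℝ) with hm
  have hmpos : 0 < m := by linarith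
  set r : ℝ := Real.sqrt (δ / (4 * m)) with hr
  have hr0 : 0 < r := Real.sqrt_pos.2 (by positivity)
  have hr2 : r ^ 2 = δ / (4 * m) := Real.sq_sqrt (by positivity)
  have hr2δ : r ^ 2 / δ = 1 / (4 * m) := by rw [hr2]; field_simp
  have hr8 : 8 * r ^ 2 < δ := by
    rw [hr2, ← mul_div_assoc, div_lt_iff₀ (by positivity)]
    nlinarith
  set σ : ℝ := Real.pi / (2 * m) with hσ
  have hσ0 : 0 ≤ σ := by rw [hσ]; positivity
  have hpi := Real.pi_lt_d2
  have hpi0 := Real.pi_pos
  have hτ : 2 * (r ^ 2 / δ + σ) ≤ 1 / 4 := by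
    rw [hr2δ, hσ]
    have h1 : 1 / (4 * m) ≤ 1 / 3200 := one_div_le_one_div_of_le (by norm_num) (by linarith)
    have h2 : Real.pi / (2 * m) ≤ 3.15 / 1600 :=
      div_le_div₀ (by norm_num) hpi.le (by norm_num) (by linarith)
    norm_num at h1 h2 ⊢
    linarith
  have hτ8 : 2 * (2 * (r ^ 2 / δ + σ)) < 8 / m := by
    rw [hr2δ, hσ]
    have : 2 * (2 * (1 / (4 * m) + Real.pi / (2 * m))) = (1 + 2 * Real.pi) / m := by
      field_simp
      ring
    rw [this]
    apply div_lt_div_of_pos_right _ hmpos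
    linarith
  refine ⟨r / 16, by positivity, ?_⟩
  intro K hK ι c u J hu hcen
  -- unit vectors in short directions
  have hνex : ∀ j, ∃ ν : V 2, (¬ (∀ φ, r ^ 2 * sq φ ≤ qf (u j) φ)) →
      sq ν = 1 ∧ qf (u j) ν ≤ r ^ 2 := by
    intro j
    by_cases hg : ∀ φ, r ^ 2 * sq φ ≤ qf (u j) φ
    · exact ⟨0, fun h => absurd hg h⟩
    · push Not at hg
      obtain ⟨φ, hφ⟩ := hg
      have hsq : 0 < sq φ := by
        have h1 : 0 ≤ qf (u j) φ := by unfold qf; positivity
        by_contra hcon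
        push Not at hcon
        have h2 : r ^ 2 * sq φ ≤ 0 := mul_nonpos_of_nonneg_of_nonpos (by positivity) hcon
        linarith
      set s : ℝ := Real.sqrt (sq φ) with hs
      have hs0 : 0 < s := Real.sqrt_pos.2 hsq
      have hs2 : s ^ 2 = sq φ := Real.sq_sqrt hsq.le
      refine ⟨(1 / s) • φ, fun _ => ⟨?_, ?_⟩⟩
      · have : sq ((1 / s) • φ) = sq φ / s ^ 2 := by
          unfold sq
          simp only [Pi.smul_apply, smul_eq_mul]
          ring
        rw [this, hs2, div_self hsq.ne']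
      · have : qf (u j) ((1 / s) • φ) = qf (u j) φ / s ^ 2 := by
          unfold qf dt
          simp only [Pi.smul_apply, smul_eq_mul]
          ring
        rw [this, hs2, div_le_iff₀ hsq]
        exact hφ.le
  choose ν hν using hνex
  have haex : ∀ j, ∃ a : ℕ, (¬ (∀ φ, r ^ 2 * sq φ ≤ qf (u j) φ)) →
      a < 8 * b ∧ |dd (ν j) (ea (8 * b) a)| ≤ σ := by
    intro j
    by_cases hg : ∀ φ, r ^ 2 * sq φ ≤ qf (u j) φ
    · exact ⟨0, fun h => absurd hg h⟩
    · obtain ⟨a, ha1, ha2⟩ := cell_exists (8 * b) hm0 (ν j) (hν j hg).1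
      exact ⟨a, fun _ => ⟨ha1, ha2⟩⟩
  choose a ha using haex
  set Jg : Finset ι := J.filter (fun j => ∀ φ, r ^ 2 * sq φ ≤ qf (u j) φ) with hJg
  set Jb : Finset ι := J.filter (fun j => ¬ ∀ φ, r ^ 2 * sq φ ≤ qf (u j) φ) with hJb
  have hJb' : ∀ j ∈ Jb, sq (ν j) = 1 ∧ qf (u j) (ν j) ≤ r ^ 2 ∧ a j < 8 * b ∧
      |dd (ν j) (ea (8 * b) (a j))| ≤ σ := by
    intro j hj
    rw [hJb, Finset.mem_filter] at hj
    exact ⟨(hν j hj.2).1, (hν j hj.2).2, (ha j hj.2).1, (ha j hj.2).2⟩
  obtain ⟨o, ho, hosum⟩ := exists_offset b (by omega) Jb a (fun i hi => (hJb' i hi).2.2.1)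
  set cls : ℕ → Finset ι := fun t => if t = 8 * b then Jg else Jb.filter (fun j => a j = t)
    with hcls
  set blk : ℕ → Finset ι := fun k => Jb.filter (fun j => InBlock b o k (a j)) with hblk
  have hclsJ : ∀ t, cls t ⊆ J := by
    intro t
    rw [hcls]
    by_cases ht : t = 8 * b
    · simp only [ht, if_true]
      exact Finset.filter_subset _ _
    · simp only [ht, if_false]
      exact (Finset.filter_subset _ _).trans (Finset.filter_subset _ _)
  refine ⟨cls, fun t => (r / 4) • ea (8 * b) t, blk, hclsJ, ?_, ?_, ?_, ?_⟩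
  · intro k
    exact (Finset.filter_subset _ _).trans (Finset.filter_subset _ _)
  · intro k hk
    obtain ⟨ψ, hψ1, hψ2⟩ := block_center b o k hb ho hk
    refine le_trans ?_ (hcen ψ hψ1)
    apply Nat.mul_le_mul_left
    apply Finset.card_le_card
    intro j hj
    rw [hblk, Finset.mem_filter] at hj
    obtain ⟨h1, h2, h3, h4⟩ := hJb' j hj.1
    rw [Finset.mem_filter]
    refine ⟨(Finset.mem_filter.1 hj.1).1, ?_⟩
    exact qf_block (u j) δ r hδ (hu j) hr8 (ν j) ψ h1 hψ1 (hψ2 (a j) h3 hj.2 (ν j) h1 h4) h2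
  · refine hosum.trans ?_
    exact Nat.mul_le_mul_left _ (Finset.card_le_card (Finset.filter_subset _ _))
  · intro G hGJ hGne
    have hGc : (0 : ℝ) < G.card := by exact_mod_cast hGne.card_pos
    set K1 : ℝ := K * (8 * b + 1) with hK1
    have hb0 : (0 : ℝ) ≤ b := Nat.cast_nonneg b
    have hK1pos : 0 < K1 := by rw [hK1]; positivity
    by_cases hgood : (G.card : ℝ) ≤ K1 * ((G ∩ cls (8 * b)).card : ℝ)
    · right
      intro x hx
      refine ⟨8 * b, by omega, hgood, 0, Or.inl rfl, ?_⟩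
      have hx1 := hx (8 * b) (by omega) hgood
      have hc8 : cls (8 * b) = Jg := by rw [hcls]; simp
      rw [hc8] at hx1
      have hne : (G ∩ Jg).Nonempty := by
        rw [hc8] at hgood
        rw [← Finset.card_pos]
        by_contra hcon
        have h0 : (G ∩ Jg).card = 0 := by omega
        rw [h0] at hgood
        simp at hgood
        exact absurd hgood hGne.ne_empty
      refine Set.Subset.trans ?_ (node_hull_mono c u (Finset.inter_subset_left (s₂ := Jg)))
      apply box_sub_hull c u (G ∩ Jg) hne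
      intro φ
      obtain ⟨j, hj, hj'⟩ := exists_ge_of_mem_hull c (G ∩ Jg) _ hx1 φ
      have hjg := (Finset.mem_filter.1 (Finset.mem_inter.1 hj).2).2
      obtain ⟨i, hi⟩ := wide (u j) r hr0.le φ (hjg φ)
      refine ⟨j, hj, i, ?_⟩
      rw [add_zero]
      have hN : 0 ≤ N1 φ := by unfold N1; positivity
      nlinarith
    · by_cases hfar : ∃ t1 < 8 * b, ∃ t2 < 8 * b, Far b t1 t2 ∧
          (G.card : ℝ) ≤ K1 * ((G ∩ cls t1).card : ℝ) ∧
          (G.card : ℝ) ≤ K1 * ((G ∩ cls t2).card : ℝ)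
      · right
        obtain ⟨t1, ht1, t2, ht2, hF, hh1, hh2⟩ := hfar
        intro x hx
        have hcls' : ∀ t < 8 * b, ∀ j ∈ G ∩ cls t, sq (ν j) = 1 ∧ qf (u j) (ν j) ≤ r ^ 2 ∧
            |dd (ν j) (ea (8 * b) t)| ≤ σ := by
          intro t ht j hj
          have h1 := (Finset.mem_inter.1 hj).2
          rw [hcls] at h1
          simp only [ht.ne, if_false, Finset.mem_filter] at h1
          obtain ⟨h2, h3⟩ := h1
          have h4 := hJb' j h2
          rw [h3] at h4
          exact ⟨h4.1, h4.2.1, h4.2.2.2⟩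
        obtain ⟨z, hz, hzs⟩ := node_far c u δ r σ hδ hr0 hu G (G ∩ cls t1) (G ∩ cls t2) hGne
          Finset.inter_subset_left Finset.inter_subset_left ν (ea (8 * b) t1) (ea (8 * b) t2)
          (x t1) (x t2) (sq_ea _ _) (sq_ea _ _) hσ0 hτ
          (lt_of_lt_of_le hτ8 (cell_far b t1 t2 ht1 ht2 hF)) (hcls' t1 ht1) (hcls' t2 ht2)
          (hx t1 (by omega) hh1) (hx t2 (by omega) hh2)
        rcases hz with rfl | rfl | rfl | rfl | rfl | rfl
        · exact ⟨t1, by omega, hh1, 0, Or.inl rfl, by rw [add_zero]; exact hzs⟩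
        · exact ⟨t1, by omega, hh1, _, Or.inr (Or.inl rfl), hzs⟩
        · exact ⟨t1, by omega, hh1, _, Or.inr (Or.inr rfl), by rw [← sub_eq_add_neg]; exact hzs⟩
        · exact ⟨t2, by omega, hh2, 0, Or.inl rfl, by rw [add_zero]; exact hzs⟩
        · exact ⟨t2, by omega, hh2, _, Or.inr (Or.inl rfl), hzs⟩
        · exact ⟨t2, by omega, hh2, _, Or.inr (Or.inr rfl), by rw [← sub_eq_add_neg]; exact hzs⟩
      · left
        push Not at hfar
        -- every element of `G` is in some class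
        have hcov : ∀ j ∈ G, (j ∈ G ∩ cls (8 * b)) ∨ (a j < 8 * b ∧ j ∈ Jb ∧ j ∈ G ∩ cls (a j)) := by
          intro j hj
          by_cases hg : ∀ φ, r ^ 2 * sq φ ≤ qf (u j) φ
          · left
            rw [Finset.mem_inter]
            refine ⟨hj, ?_⟩
            rw [hcls]
            simp only [if_true]
            exact Finset.mem_filter.2 ⟨hGJ hj, hg⟩
          · right
            have hjb : j ∈ Jb := Finset.mem_filter.2 ⟨hGJ hj, hg⟩
            have h3 := (hJb' j hjb).2.2.1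
            refine ⟨h3, hjb, Finset.mem_inter.2 ⟨hj, ?_⟩⟩
            rw [hcls]
            simp only [h3.ne, if_false, Finset.mem_filter, and_true]
            exact hjb
        -- a heavy cell
        have hheavy : ∃ t1 < 8 * b, (G.card : ℝ) ≤ K1 * ((G ∩ cls t1).card : ℝ) := by
          by_contra hcon
          push Not at hcon
          have h1 : G ⊆ (Finset.range (8 * b + 1)).biUnion (fun t => G ∩ cls t) := by
            intro j hj
            rw [Finset.mem_biUnion]
            rcases hcov j hj with h | ⟨h, _, h'⟩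
            · exact ⟨8 * b, Finset.mem_range.2 (by omega), h⟩
            · exact ⟨a j, Finset.mem_range.2 (by omega), h'⟩
          have h2 : (G.card : ℝ) ≤ ∑ t ∈ Finset.range (8 * b + 1), ((G ∩ cls t).card : ℝ) := by
            exact_mod_cast (Finset.card_le_card h1).trans Finset.card_biUnion_le
          have h3 : ∑ t ∈ Finset.range (8 * b + 1), ((G ∩ cls t).card : ℝ) <
              ∑ t ∈ Finset.range (8 * b + 1), (G.card : ℝ) / K1 := by
            apply Finset.sum_lt_sum_of_nonempty (Finset.nonempty_range_iff.2 (by omega))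
            intro t ht
            rw [Finset.mem_range] at ht
            rw [lt_div_iff₀ hK1pos, mul_comm]
            rcases Nat.lt_or_ge t (8 * b) with h | h
            · exact hcon t h
            · have : t = 8 * b := by omega
              rw [this]
              exact not_le.1 hgood
          rw [Finset.sum_const, Finset.card_range, nsmul_eq_mul] at h3
          have h4 : ((8 * b + 1 : ℕ) : ℝ) * ((G.card : ℝ) / K1) ≤ G.card := by
            rw [← mul_div_assoc, div_le_iff₀ hK1pos, hK1]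
            push_cast
            have : 0 ≤ (8 * (b : ℝ) + 1) * G.card * (K - 1) := by
              apply mul_nonneg (by positivity); linarith
            nlinarith
          linarith
        obtain ⟨t1, ht1, hh1⟩ := hheavy
        obtain ⟨k, hk, hkb⟩ := near_in_block b o t1 (by omega) ho ht1
        refine ⟨k, hk, ?_⟩
        set T : Finset ℕ := (Finset.range (8 * b + 1)).filter
          (fun t => ¬ (G.card : ℝ) ≤ K1 * ((G ∩ cls t).card : ℝ)) with hT
        have h1 : G ⊆ (G ∩ blk k) ∪ T.biUnion (fun t => G ∩ cls t) := by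
          intro j hj
          rw [Finset.mem_union, Finset.mem_biUnion]
          rcases hcov j hj with h | ⟨h, hjb, h'⟩
          · right
            exact ⟨8 * b, Finset.mem_filter.2 ⟨Finset.mem_range.2 (by omega), hgood⟩, h⟩
          · by_cases hF : Far b t1 (a j)
            · right
              refine ⟨a j, Finset.mem_filter.2 ⟨Finset.mem_range.2 (by omega), ?_⟩, h'⟩
              exact not_le.2 (hfar t1 ht1 (a j) h hF hh1)
            · left
              rw [Finset.mem_inter]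
              exact ⟨hj, Finset.mem_filter.2 ⟨hjb, hkb (a j) h hF⟩⟩
        have h2 : (G.card : ℝ) ≤ ((G ∩ blk k).card : ℝ) +
            ∑ t ∈ T, ((G ∩ cls t).card : ℝ) := by
          have h3 := (Finset.card_le_card h1).trans (Finset.card_union_le _ _)
          have h4 := Finset.card_biUnion_le (s := T) (t := fun t => G ∩ cls t)
          have h5 : G.card ≤ (G ∩ blk k).card + ∑ t ∈ T, (G ∩ cls t).card := by omega
          exact_mod_cast h5
        have h3 : ∑ t ∈ T, ((G ∩ cls t).card : ℝ) ≤ ∑ t ∈ T, (G.card : ℝ) / K1 := by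
          apply Finset.sum_le_sum
          intro t ht
          rw [hT, Finset.mem_filter] at ht
          rw [le_div_iff₀ hK1pos, mul_comm]
          exact (not_le.1 ht.2).le
        have h4 : ∑ t ∈ T, (G.card : ℝ) / K1 ≤ (8 * b + 1) * ((G.card : ℝ) / K1) := by
          rw [Finset.sum_const, nsmul_eq_mul]
          apply mul_le_mul_of_nonneg_right _ (by positivity)
          have : T.card ≤ 8 * b + 1 := by
            have := Finset.card_filter_le (Finset.range (8 * b + 1))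
              (fun t => ¬ (G.card : ℝ) ≤ K1 * ((G ∩ cls t).card : ℝ))
            rw [Finset.card_range] at this
            exact this
          exact_mod_cast this
        have h5 : (8 * (b : ℝ) + 1) * ((G.card : ℝ) / K1) = (G.card : ℝ) / K := by
          rw [hK1]
          field_simp
        have h6 : (1 - 1 / K) * (G.card : ℝ) = G.card - (G.card : ℝ) / K := by ring
        rw [h6]
        linarith

end Pl

end

end MPa20b56
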