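import Pool.Agent.Lib_MP_a20b56_pl.NodeN
import Pool.Agent.Lib_MP_a20b56_pl.CenterQ

namespace MPa20b56

open scoped BigOperators Classical

noncomputable section

namespace Pl

/-- NODET: the node of the recursion in general coordinates. -/
theorem node (δ : ℝ) (hδ : 0 < δ) (b : ℕ) (hb : 100 ≤ b) :
    ∃ κ : ℝ, 0 < κ ∧ ∀ (K : ℝ), 1 ≤ K → ∀ (ι : Type) (c : ι → V 2) (u : ι → Fin 2 → V 2)
      (J : Finset ι), J.Nonempty → (∀ j, δ ≤ |dd (u j 0) (u j 1)|) →
      ∃ (w : Fin 2 → V 2) (cls : ℕ → Finset ι) (vec : ℕ → V 2) (blk : ℕ → Finset ι),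
        dd (w 0) (w 1) = 1 ∧ (∀ t, cls t ⊆ J) ∧ (∀ k, blk k ⊆ J) ∧
        (∀ k < 8, 4 * (blk k).card ≤ 3 * J.card) ∧
        b * ∑ k ∈ Finset.range 8, (blk k).card ≤ (b + 7) * J.card ∧
        ∀ G ⊆ J, G.Nonempty →
          (∃ k < 8, (1 - 1 / K) * (G.card : ℝ) ≤ ((G ∩ blk k).card : ℝ)) ∨
          (∀ x : ℕ → V 2,
            (∀ t < 8 * b + 1, (G.card : ℝ) ≤ K * (8 * b + 1) * ((G ∩ cls t).card : ℝ) →
              x t ∈ convexHull ℝ (c '' ((G ∩ cls t : Finset ι) : Set ι))) →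
            ∃ t < 8 * b + 1, (G.card : ℝ) ≤ K * (8 * b + 1) * ((G ∩ cls t).card : ℝ) ∧
              ∃ s : V 2, (s = 0 ∨ s = vec t ∨ s = - vec t) ∧
                Bx κ (x t + s) w ⊆ Hull c u G) := by
  obtain ⟨κ, hκ, hmain⟩ := node_norm δ hδ b hb
  refine ⟨κ, hκ, ?_⟩
  intro K hK ι c u J hJ hu
  obtain ⟨w, hw, hcen⟩ := center_basis J hJ u (fun j => by
    have h1 := hu j
    intro h0
    rw [h0, abs_zero] at h1
    linarith)
  obtain ⟨cls, vec, blk, h1, h2, h3, h4, h5⟩ := hmain K hK ι (fun j => co w (c j))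
    (fun j i => co w (u j i)) J (fun j => by
      rw [dd_co w hw]
      exact hu j) hcen
  refine ⟨w, cls, fun t => vec t 0 • w 0 + vec t 1 • w 1, blk, hw, h1, h2, h3, h4, ?_⟩
  intro G hG hGne
  rcases h5 G hG hGne with h | h
  · exact Or.inl h
  · refine Or.inr ?_
    intro x hx
    obtain ⟨t, ht, htc, s, hs, hsub⟩ := h (fun t => co w (x t))
      (fun t ht htc => co_mem_hull c (G ∩ cls t) w hw (x t) (hx t ht htc))
    have hB := box_transfer c u G w hw κ _ hsub
    refine ⟨t, ht, htc, s 0 • w 0 + s 1 • w 1, ?_, ?_⟩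
    · rcases hs with rfl | rfl | rfl
      · left
        simp
      · right; left; rfl
      · right; right
        simp only [Pi.neg_apply, neg_smul]
        abel
    · have he : x t + (s 0 • w 0 + s 1 • w 1) =
          (co w (x t) + s) 0 • w 0 + (co w (x t) + s) 1 • w 1 := by
        conv_lhs => rw [co_comb w hw (x t)]
        simp only [Pi.add_apply, add_smul]
        abel
      rw [he]
      exact hB

end Pl

end

end MPa20b56
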