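import Pool.Agent.Lib_MP_a20b56_pl.Defs

namespace MPa20b56

open scoped BigOperators Classical

noncomputable section

namespace Pl

theorem quad_qf_nonneg (u : Fin 2 → V 2) (φ : V 2) : 0 ≤ qf u φ := by
  unfold qf
  positivity

/-- QUAD1: Gram determinant inequality -/
theorem qf_det (u : Fin 2 → V 2) (φ ψ : V 2) :
    (dd φ ψ) ^ 2 * (dd (u 0) (u 1)) ^ 2 ≤ qf u φ * qf u ψ := by
  have h : qf u φ * qf u ψ = (dd φ ψ) ^ 2 * (dd (u 0) (u 1)) ^ 2 +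
      (dt φ (u 0) * dt ψ (u 0) + dt φ (u 1) * dt ψ (u 1)) ^ 2 := by
    unfold qf dd dt
    ring
  rw [h]
  have := sq_nonneg (dt φ (u 0) * dt ψ (u 0) + dt φ (u 1) * dt ψ (u 1))
  linarith

theorem quad_dt_sq (φ ψ : V 2) : dt φ ψ ^ 2 + dd φ ψ ^ 2 = sq φ * sq ψ := by
  unfold dt dd sq
  ring

theorem quad_abs_dt_le (φ ψ : V 2) (hφ : sq φ = 1) (hψ : sq ψ = 1) : |dt φ ψ| ≤ 1 := by
  have h := quad_dt_sq φ ψ
  rw [hφ, hψ] at h
  rw [abs_le]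
  constructor <;> nlinarith [sq_nonneg (dd φ ψ)]

theorem quad_dd_split (φ ψ χ : V 2) (hψ : sq ψ = 1) :
    dd φ χ = dd φ ψ * dt ψ χ + dt φ ψ * dd ψ χ := by
  have h : dd φ ψ * dt ψ χ + dt φ ψ * dd ψ χ = sq ψ * dd φ χ := by
    unfold dt dd sq
    ring
  rw [h, hψ, one_mul]

/-- QUAD2: triangle inequality for sines -/
theorem dd_triangle (φ ψ χ : V 2) (hφ : sq φ = 1) (hψ : sq ψ = 1) (hχ : sq χ = 1) :
    |dd φ χ| ≤ |dd φ ψ| + |dd ψ χ| := by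
  rw [quad_dd_split φ ψ χ hψ]
  have h1 := quad_abs_dt_le ψ χ hψ hχ
  have h2 := quad_abs_dt_le φ ψ hφ hψ
  calc |dd φ ψ * dt ψ χ + dt φ ψ * dd ψ χ| ≤ |dd φ ψ * dt ψ χ| + |dt φ ψ * dd ψ χ| := abs_add_le _ _
    _ = |dd φ ψ| * |dt ψ χ| + |dt φ ψ| * |dd ψ χ| := by rw [abs_mul, abs_mul]
    _ ≤ |dd φ ψ| * 1 + 1 * |dd ψ χ| :=
        add_le_add (mul_le_mul_of_nonneg_left h1 (abs_nonneg _))
          (mul_le_mul_of_nonneg_right h2 (abs_nonneg _))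
    _ = |dd φ ψ| + |dd ψ χ| := by ring

/-- QUAD3: if `u` is short in the direction `ν` then it is short in the direction `ψ`. -/
theorem qf_block (u : Fin 2 → V 2) (δ r : ℝ) (hδ : 0 < δ) (hu : δ ≤ |dd (u 0) (u 1)|)
    (hr : 8 * r ^ 2 < δ) (ν ψ : V 2) (hν : sq ν = 1) (hψ : sq ψ = 1) (h : |dd ν ψ| ≤ 1 / 4)
    (hq : qf u ν ≤ r ^ 2) : 4 * qf u ψ < tr2 u := by
  obtain ⟨μ, hμ⟩ : ∃ μ : V 2, μ = ![-ν 1, ν 0] := ⟨_, rfl⟩
  have hμ0 : μ 0 = -ν 1 := by rw [hμ]; rfl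
  have hμ1 : μ 1 = ν 0 := by rw [hμ]; rfl
  have hdec : ∀ x : V 2, dt ψ x = dt ν ψ * dt ν x + dd ν ψ * dt μ x := by
    intro x
    have e1 : dt ν ψ * dt ν x + dd ν ψ * dt μ x = sq ν * dt ψ x := by
      unfold dt dd sq
      rw [hμ0, hμ1]
      ring
    rw [e1, hν, one_mul]
  have hdt := quad_dt_sq ν ψ
  rw [hν, hψ] at hdt
  have hd2 : dd ν ψ ^ 2 ≤ 1 / 16 := by
    have := abs_le.1 h
    nlinarith [this.1, this.2]
  have hd1 : dt ν ψ ^ 2 ≤ 1 := by nlinarith [sq_nonneg (dd ν ψ)]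
  have key : ∀ x : V 2, dt ψ x ^ 2 ≤ 2 * dt ν x ^ 2 + 1 / 8 * dt μ x ^ 2 := by
    intro x
    rw [hdec x]
    have h1 : (dt ν ψ * dt ν x + dd ν ψ * dt μ x) ^ 2 ≤
        2 * (dt ν ψ ^ 2 * dt ν x ^ 2) + 2 * (dd ν ψ ^ 2 * dt μ x ^ 2) := by
      nlinarith [sq_nonneg (dt ν ψ * dt ν x - dd ν ψ * dt μ x)]
    have h2 : dt ν ψ ^ 2 * dt ν x ^ 2 ≤ 1 * dt ν x ^ 2 :=
      mul_le_mul_of_nonneg_right hd1 (sq_nonneg _)
    have h3 : dd ν ψ ^ 2 * dt μ x ^ 2 ≤ 1 / 16 * dt μ x ^ 2 :=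
      mul_le_mul_of_nonneg_right hd2 (sq_nonneg _)
    linarith
  have h1 := key (u 0)
  have h2 := key (u 1)
  have htr : tr2 u = qf u ν + qf u μ := by
    have e1 : qf u ν + qf u μ = sq ν * tr2 u := by
      unfold qf tr2 dt sq
      rw [hμ0, hμ1]
      ring
    rw [e1, hν, one_mul]
  have hdet : 2 * |dd (u 0) (u 1)| ≤ tr2 u := by
    have e1 := quad_dt_sq (u 0) (u 1)
    have e2 : tr2 u = sq (u 0) + sq (u 1) := rfl
    have e3 : 0 ≤ sq (u 0) := by unfold sq; positivity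
    have e4 : 0 ≤ sq (u 1) := by unfold sq; positivity
    have e5 : (2 * |dd (u 0) (u 1)|) ^ 2 ≤ tr2 u ^ 2 := by
      rw [mul_pow, sq_abs, e2]
      nlinarith [sq_nonneg (sq (u 0) - sq (u 1)), sq_nonneg (dt (u 0) (u 1))]
    exact abs_le_of_sq_le_sq' e5 (by rw [e2]; linarith) |>.2
  have hqm := quad_qf_nonneg u μ
  have hqn := quad_qf_nonneg u ν
  have hqψ : qf u ψ ≤ 2 * qf u ν + 1 / 8 * qf u μ := by
    unfold qf
    linarith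
  linarith

/-- QUAD4: wide directions -/
theorem wide (u : Fin 2 → V 2) (r : ℝ) (hr : 0 ≤ r) (φ : V 2) (h : r ^ 2 * sq φ ≤ qf u φ) :
    ∃ i : Fin 2, r / 2 * N1 φ ≤ |dt φ (u i)| := by
  have hN : N1 φ ^ 2 ≤ 2 * sq φ := by
    unfold N1 sq
    have e0 := sq_abs (φ 0)
    have e1 := sq_abs (φ 1)
    nlinarith [sq_nonneg (|φ 0| - |φ 1|)]
  have hN0 : 0 ≤ N1 φ := by unfold N1; positivity
  have h1 : r ^ 2 * N1 φ ^ 2 ≤ 2 * (dt φ (u 0) ^ 2 + dt φ (u 1) ^ 2) := by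
    have := mul_le_mul_of_nonneg_left hN (sq_nonneg r)
    unfold qf at h
    linarith
  by_contra hcon
  push Not at hcon
  have a0 := hcon 0
  have a1 := hcon 1
  have hp : 0 ≤ r / 2 * N1 φ := by positivity
  have b0 : dt φ (u 0) ^ 2 < (r / 2 * N1 φ) ^ 2 := by
    rw [← sq_abs]
    exact pow_lt_pow_left₀ a0 (abs_nonneg _) (by norm_num)
  have b1 : dt φ (u 1) ^ 2 < (r / 2 * N1 φ) ^ 2 := by
    rw [← sq_abs]
    exact pow_lt_pow_left₀ a1 (abs_nonneg _) (by norm_num)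
  nlinarith

/-- QUAD5: if `u` is short in the direction `ν` (a unit vector) and `ν` is close to `e`, then `u` is
wide in all directions outside the double cone around `e`. -/
theorem wide_outside (u : Fin 2 → V 2) (δ r σ : ℝ) (hδ : 0 < δ) (hr : 0 ≤ r)
    (hu : δ ≤ |dd (u 0) (u 1)|) (ν e : V 2) (hν : sq ν = 1) (he : sq e = 1)
    (hνe : |dd ν e| ≤ σ) (hq : qf u ν ≤ r ^ 2) (hs : r ^ 2 / δ + σ ≤ 1 / 2) (φ : V 2)
    (hφ : 2 * (r ^ 2 / δ + σ) * |dt φ e| < |dd φ e|) :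
    r ^ 2 * sq φ ≤ qf u φ := by
  by_contra hcon
  push Not at hcon
  have hσ : 0 ≤ σ := (abs_nonneg _).trans hνe
  obtain ⟨s, hsdef⟩ : ∃ s : ℝ, s = r ^ 2 / δ + σ := ⟨_, rfl⟩
  have hs0 : 0 ≤ s := by rw [hsdef]; positivity
  rw [← hsdef] at hs hφ
  obtain ⟨n, hn0, hn⟩ : ∃ n : ℝ, 0 ≤ n ∧ n ^ 2 = sq φ := by
    refine ⟨Real.sqrt (sq φ), Real.sqrt_nonneg _, Real.sq_sqrt ?_⟩
    unfold sq
    positivity
  -- the component along ν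
  have h1 := qf_det u φ ν
  have h2 : qf u φ * qf u ν ≤ (r ^ 2 * n ^ 2) * r ^ 2 := by
    rw [hn]
    exact mul_le_mul hcon.le hq (quad_qf_nonneg u ν) (by rw [← hn]; positivity)
  have h3 : (|dd φ ν| * δ) ^ 2 ≤ (r ^ 2 * n) ^ 2 := by
    have e1 : dd φ ν ^ 2 * δ ^ 2 ≤ dd φ ν ^ 2 * (dd (u 0) (u 1)) ^ 2 := by
      apply mul_le_mul_of_nonneg_left _ (sq_nonneg _)
      rw [← sq_abs (dd (u 0) (u 1))]
      exact pow_le_pow_left₀ hδ.le hu 2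
    rw [mul_pow, sq_abs]
    nlinarith
  have h4 : |dd φ ν| * δ ≤ r ^ 2 * n := by
    have := abs_le_of_sq_le_sq' h3 (by positivity)
    exact this.2
  have h5 : |dd φ ν| ≤ r ^ 2 / δ * n := by
    rw [div_mul_eq_mul_div, le_div_iff₀ hδ]
    exact h4
  have h6 : |dt φ ν| ≤ n := by
    have e1 := quad_dt_sq φ ν
    rw [hν, mul_one, ← hn] at e1
    have e2 : |dt φ ν| ^ 2 ≤ n ^ 2 := by
      rw [sq_abs]
      nlinarith [sq_nonneg (dd φ ν)]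
    exact (abs_le_of_sq_le_sq' e2 hn0).2
  have h7 := quad_abs_dt_le ν e hν he
  have h8 : |dd φ e| ≤ s * n := by
    rw [quad_dd_split φ ν e hν]
    calc |dd φ ν * dt ν e + dt φ ν * dd ν e|
        ≤ |dd φ ν * dt ν e| + |dt φ ν * dd ν e| := abs_add_le _ _
      _ = |dd φ ν| * |dt ν e| + |dt φ ν| * |dd ν e| := by rw [abs_mul, abs_mul]
      _ ≤ (r ^ 2 / δ * n) * 1 + n * σ :=
          add_le_add (mul_le_mul h5 h7 (abs_nonneg _) (by positivity))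
            (mul_le_mul h6 hνe (abs_nonneg _) hn0)
      _ = s * n := by rw [hsdef]; ring
  have h9 := quad_dt_sq φ e
  rw [he, mul_one, ← hn] at h9
  have h10 : dd φ e ^ 2 ≤ s ^ 2 * n ^ 2 := by
    rw [← sq_abs, ← mul_pow]
    exact pow_le_pow_left₀ (abs_nonneg _) h8 2
  have h11 : (2 * s * |dt φ e|) ^ 2 < |dd φ e| ^ 2 :=
    pow_lt_pow_left₀ hφ (by positivity) (by norm_num)
  rw [mul_pow, mul_pow, sq_abs, sq_abs] at h11
  have h12 : s ^ 2 ≤ 1 / 4 := by nlinarith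
  rw [← h9] at h10
  have h13 : s ^ 2 * dd φ e ^ 2 ≤ 1 / 4 * dd φ e ^ 2 :=
    mul_le_mul_of_nonneg_right h12 (sq_nonneg _)
  nlinarith [sq_nonneg (dd φ e)]

end Pl

end

end MPa20b56
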