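import Pool.Agent.Lib_MP_a20b56_pl.Defs

namespace MPa20b56

open scoped BigOperators Classical

noncomputable section

namespace Pl

/-- the coordinates of the vector with given coordinates -/
theorem sep_comb (w : Fin 2 → V 2) (hw : dd (w 0) (w 1) = 1) (x : V 2) :
    x = (co w x) 0 • w 0 + (co w x) 1 • w 1 := by
  unfold dd at hw
  funext i
  simp only [co, dd, Pi.add_apply, Pi.smul_apply, smul_eq_mul, Matrix.cons_val_zero,
    Matrix.cons_val_one]
  fin_cases i
  · simp only [Fin.zero_eta, Fin.isValue]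
    linear_combination (-(x 0)) * hw
  · simp only [Fin.mk_one, Fin.isValue]
    linear_combination (-(x 1)) * hw

/-- `co w` as a linear map -/
def sepCo (w : Fin 2 → V 2) : V 2 →ₗ[ℝ] V 2 where
  toFun := co w
  map_add' x y := by
    funext i
    fin_cases i
    · show (co w (x + y)) 0 = (co w x) 0 + (co w y) 0
      simp only [co, dd, Pi.add_apply, Matrix.cons_val_zero]
      ring
    · show (co w (x + y)) 1 = (co w x) 1 + (co w y) 1
      simp only [co, dd, Pi.add_apply, Matrix.cons_val_one, Matrix.cons_val_fin_one]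
      ring
  map_smul' a x := by
    funext i
    fin_cases i
    · show (co w (a • x)) 0 = a * (co w x) 0
      simp only [co, dd, Pi.smul_apply, smul_eq_mul, Matrix.cons_val_zero]
      ring
    · show (co w (a • x)) 1 = a * (co w x) 1
      simp only [co, dd, Pi.smul_apply, smul_eq_mul, Matrix.cons_val_one,
        Matrix.cons_val_fin_one]
      ring

/-- the inverse of `co w` as a linear map -/
def sepL (w : Fin 2 → V 2) : V 2 →ₗ[ℝ] V 2 where
  toFun t := t 0 • w 0 + t 1 • w 1
  map_add' x y := by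
    simp only [Pi.add_apply, add_smul]
    abel
  map_smul' a x := by
    simp only [Pi.smul_apply, smul_eq_mul, RingHom.id_apply, smul_add, mul_smul]

/-- a linear map sends the convex hull into the convex hull of the image -/
theorem sep_image (f : V 2 →ₗ[ℝ] V 2) (s t : Set (V 2)) (h : ∀ y ∈ s, f y ∈ t) (x : V 2)
    (hx : x ∈ convexHull ℝ s) : f x ∈ convexHull ℝ t := by
  have h1 : f '' convexHull ℝ s = convexHull ℝ (f '' s) := LinearMap.image_convexHull f s
  have h2 : f x ∈ f '' convexHull ℝ s := ⟨x, hx, rfl⟩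
  rw [h1] at h2
  refine convexHull_mono ?_ h2
  rintro _ ⟨y, hy, rfl⟩
  exact h y hy

/-- SEP1: support function criterion for a box to be contained in the hull. -/
theorem box_sub_hull {ι : Type} (c : ι → V 2) (u : ι → Fin 2 → V 2) (G : Finset ι)
    (hG : G.Nonempty) (κ : ℝ) (z : V 2)
    (h : ∀ φ : V 2, ∃ j ∈ G, ∃ i : Fin 2, dt φ z + κ * N1 φ ≤ dt φ (c j) + |dt φ (u j i)|) :
    Bx κ z std ⊆ Hull c u G := by
  rintro y ⟨t, ht, rfl⟩
  by_contra hne
  have hfin : Set.Finite {y : V 2 | ∃ j ∈ G, ∃ i : Fin 2, y = c j + u j i ∨ y = c j - u j i} := by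
    have h1 : {y : V 2 | ∃ j ∈ G, ∃ i : Fin 2, y = c j + u j i ∨ y = c j - u j i} =
        ⋃ j ∈ G, ⋃ i : Fin 2, ({c j + u j i, c j - u j i} : Set (V 2)) := by
      ext y
      simp
    rw [h1]
    refine Set.Finite.biUnion G.finite_toSet (fun j _ => ?_)
    exact Set.finite_iUnion (fun i => Set.toFinite _)
  have hcomp : IsCompact (Hull c u G) := hfin.isCompact_convexHull ℝ
  obtain ⟨f, r, hf1, hf2⟩ := geometric_hahn_banach_closed_point (convex_convexHull ℝ _)
    hcomp.isClosed hne
  set φ : V 2 := fun i => f (Pi.single i 1) with hφ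
  have hf : ∀ x : V 2, f x = dt φ x := by
    intro x
    have hx : x = x 0 • (Pi.single 0 1 : V 2) + x 1 • (Pi.single 1 1 : V 2) := by
      funext i
      fin_cases i <;> simp
    conv_lhs => rw [hx]
    rw [map_add, map_smul, map_smul]
    simp only [dt, hφ, smul_eq_mul]
    ring
  obtain ⟨j, hj, i, hji⟩ := h φ
  have hin1 : c j + u j i ∈ Hull c u G := subset_convexHull ℝ _ ⟨j, hj, i, Or.inl rfl⟩
  have hin2 : c j - u j i ∈ Hull c u G := subset_convexHull ℝ _ ⟨j, hj, i, Or.inr rfl⟩
  have h1 := hf1 _ hin1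
  have h2 := hf1 _ hin2
  rw [hf] at h1 h2 hf2
  have e1 : dt φ (c j + u j i) = dt φ (c j) + dt φ (u j i) := by
    simp only [dt, Pi.add_apply]; ring
  have e2 : dt φ (c j - u j i) = dt φ (c j) - dt φ (u j i) := by
    simp only [dt, Pi.sub_apply]; ring
  have e3 : dt φ (z + ∑ i, t i • std i) = dt φ z + (t 0 * φ 0 + t 1 * φ 1) := by
    simp only [dt, std, Fin.sum_univ_two, Pi.add_apply, Pi.smul_apply, smul_eq_mul,
      Matrix.cons_val_zero, Matrix.cons_val_one]
    ring
  rw [e1] at h1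
  rw [e2] at h2
  rw [e3] at hf2
  have hN : t 0 * φ 0 + t 1 * φ 1 ≤ κ * N1 φ := by
    unfold N1
    have a0 : t 0 * φ 0 ≤ κ * |φ 0| := by
      calc t 0 * φ 0 ≤ |t 0 * φ 0| := le_abs_self _
        _ = |t 0| * |φ 0| := abs_mul _ _
        _ ≤ κ * |φ 0| := mul_le_mul_of_nonneg_right (ht 0) (abs_nonneg _)
    have a1 : t 1 * φ 1 ≤ κ * |φ 1| := by
      calc t 1 * φ 1 ≤ |t 1 * φ 1| := le_abs_self _
        _ = |t 1| * |φ 1| := abs_mul _ _
        _ ≤ κ * |φ 1| := mul_le_mul_of_nonneg_right (ht 1) (abs_nonneg _)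
    linarith
  rcases abs_cases (dt φ (u j i)) with ⟨ha, _⟩ | ⟨ha, _⟩
  · rw [ha] at hji
    linarith
  · rw [ha] at hji
    linarith

/-- SEP2: a functional takes a value at least as large at one of the generators. -/
theorem exists_ge_of_mem_hull {ι : Type} (c : ι → V 2) (G : Finset ι) (x : V 2)
    (hx : x ∈ convexHull ℝ (c '' (G : Set ι))) (φ : V 2) : ∃ j ∈ G, dt φ x ≤ dt φ (c j) := by
  by_contra hcon
  push Not at hcon
  have hconv : Convex ℝ {y : V 2 | dt φ y < dt φ x} := by
    intro a ha b hb s t hs ht hst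
    simp only [Set.mem_ofPred_eq] at ha hb ⊢
    have e : dt φ (s • a + t • b) = s * dt φ a + t * dt φ b := by
      simp only [dt, Pi.add_apply, Pi.smul_apply, smul_eq_mul]
      ring
    rw [e]
    rcases hs.eq_or_lt with h0 | h0
    · have ht1 : t = 1 := by linarith
      rw [← h0, ht1]
      linarith
    · have h1 : s * dt φ a < s * dt φ x := mul_lt_mul_of_pos_left ha h0
      have h2 : t * dt φ b ≤ t * dt φ x := mul_le_mul_of_nonneg_left hb.le ht
      have h3 : s * dt φ x + t * dt φ x = dt φ x := by rw [← add_mul, hst, one_mul]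
      linarith
  have hsub : c '' (G : Set ι) ⊆ {y : V 2 | dt φ y < dt φ x} := by
    rintro _ ⟨j, hj, rfl⟩
    exact hcon j hj
  have := convexHull_min hsub hconv hx
  simp at this

/-- SEP3: transfer of a normalised box to a general basis `w` of determinant one. -/
theorem box_transfer {ι : Type} (c : ι → V 2) (u : ι → Fin 2 → V 2) (G : Finset ι)
    (w : Fin 2 → V 2) (hw : dd (w 0) (w 1) = 1) (κ : ℝ) (z : V 2)
    (h : Bx κ z std ⊆ Hull (fun j => co w (c j)) (fun j i => co w (u j i)) G) :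
    Bx κ (z 0 • w 0 + z 1 • w 1) w ⊆ Hull c u G := by
  rintro y ⟨t, ht, rfl⟩
  have hmem : z + ∑ i, t i • std i ∈ Bx κ z std := ⟨t, ht, rfl⟩
  have h1 := h hmem
  have h2 := sep_image (sepL w) _ {y | ∃ j ∈ G, ∃ i : Fin 2, y = c j + u j i ∨ y = c j - u j i}
    ?_ _ h1
  · have e : sepL w (z + ∑ i, t i • std i) = z 0 • w 0 + z 1 • w 1 + ∑ i, t i • w i := by
      simp only [sepL, std, LinearMap.coe_mk, AddHom.coe_mk, Fin.sum_univ_two]
      funext k
      simp only [Pi.add_apply, Pi.smul_apply, smul_eq_mul, Matrix.cons_val_zero,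
        Matrix.cons_val_one]
      ring
    rw [e] at h2
    exact h2
  · rintro y ⟨j, hj, i, rfl | rfl⟩
    · refine ⟨j, hj, i, Or.inl ?_⟩
      rw [map_add]
      simp only [sepL, LinearMap.coe_mk, AddHom.coe_mk]
      rw [← sep_comb w hw (c j), ← sep_comb w hw (u j i)]
    · refine ⟨j, hj, i, Or.inr ?_⟩
      rw [map_sub]
      simp only [sepL, LinearMap.coe_mk, AddHom.coe_mk]
      rw [← sep_comb w hw (c j), ← sep_comb w hw (u j i)]

/-- SEP4: coordinates and hulls of points -/
theorem co_mem_hull {ι : Type} (c : ι → V 2) (G : Finset ι) (w : Fin 2 → V 2)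
    (hw : dd (w 0) (w 1) = 1) (x : V 2) (hx : x ∈ convexHull ℝ (c '' (G : Set ι))) :
    co w x ∈ convexHull ℝ ((fun j => co w (c j)) '' (G : Set ι)) := by
  have h := sep_image (sepCo w) (c '' (G : Set ι)) ((fun j => co w (c j)) '' (G : Set ι)) ?_ x hx
  · exact h
  · rintro _ ⟨j, hj, rfl⟩
    exact ⟨j, hj, rfl⟩

/-- SEP5: the coordinates of the vector with given coordinates -/
theorem co_comb (w : Fin 2 → V 2) (hw : dd (w 0) (w 1) = 1) (x : V 2) :
    x = (co w x) 0 • w 0 + (co w x) 1 • w 1 := sep_comb w hw x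

/-- SEP6: determinants of coordinates -/
theorem dd_co (w : Fin 2 → V 2) (hw : dd (w 0) (w 1) = 1) (x y : V 2) :
    dd (co w x) (co w y) = dd x y := by
  unfold co
  unfold dd at hw ⊢
  simp only [Matrix.cons_val_zero, Matrix.cons_val_one]
  linear_combination (x 0 * y 1 - x 1 * y 0) * hw

end Pl

end

end MPa20b56
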